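import Pool.Agent.Helper45_FDC.Neg

/-!
# Paths; bounded families are negligible; the space itself is not
-/

namespace Helper45.FDC

variable {X : Type} {G : GM X}

/-- The edge between two points at distance at most one. -/
def mkE (G : GM X) (x y : X) (h : G.d x y ≤ 1) : Edge G := ⟨(x, y), h⟩

theorem bd1_mkE (x y : X) (h : G.d x y ≤ 1) :
    bd1 G (bas1 G (.inr (mkE G x y h))) = bas1 G (.inl x) + bas1 G (.inl y) :=
  bd1_inr G _

theorem vert1_mkE {x y v : X} {h : G.d x y ≤ 1} (hv : vert1 G (.inr (mkE G x y h)) v) :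
    v = x ∨ v = y := hv

/-- A path from `x` to `y`, as a 1-chain whose vertices are at most as far from `y` as `x`. -/
theorem exists_path (G : GM X) (x y : X) : ∃ p : Ch1 G,
    bd1 G p = bas1 G (.inl x) + bas1 G (.inl y) ∧
    p ∈ Sp (fun c : Cell1 G => deg1 G c = 1 ∧ ∀ v, vert1 G c v → G.d v y ≤ G.d x y) := by
  induction hN : G.d x y using Nat.strong_induction_on generalizing x with
  | _ N ih =>
    rcases Nat.eq_zero_or_pos (G.d x y) with h0 | hpos
    · refine ⟨bas1 G (.inr (mkE G x y (by omega))), bd1_mkE _ _ _, ?_⟩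
      apply single_mem_Sp
      refine ⟨rfl, ?_⟩
      intro v hv
      rcases vert1_mkE hv with rfl | rfl
      · omega
      · rw [G.self]; omega
    · obtain ⟨z, hz1, hz2⟩ := G.step x y hpos
      obtain ⟨p, hp1, hp2⟩ := ih (G.d z y) (by omega) z rfl
      refine ⟨bas1 G (.inr (mkE G x z hz1)) + p, ?_, ?_⟩
      · rw [map_add, bd1_mkE, hp1]
        have := add_self_zero (bas1 G (.inl z) : Ch1 G)
        calc _ = bas1 G (.inl x) + bas1 G (.inl y) + (bas1 G (.inl z) + bas1 G (.inl z)) := by abel
          _ = _ := by rw [this, add_zero]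
      · apply Submodule.add_mem
        · apply single_mem_Sp
          refine ⟨rfl, ?_⟩
          intro v hv
          rcases vert1_mkE hv with rfl | rfl
          · omega
          · omega
        · refine Sp_mono ?_ hp2
          intro c hc
          refine ⟨hc.1, fun v hv => ?_⟩
          have := hc.2 v hv
          omega

/-- A point just outside the ball of radius `M`. -/
theorem exists_out (G : GM X) (x : X) (M : ℕ) : ∃ y, M < G.d x y ∧ G.d x y ≤ M + 1 := by
  obtain ⟨y, hy⟩ := G.unb x M
  induction hN : G.d x y using Nat.strong_induction_on generalizing y with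
  | _ N ih =>
    by_cases h1 : G.d x y ≤ M + 1
    · exact ⟨y, hy, h1⟩
    · obtain ⟨z, hz1, hz2⟩ := G.step y x (by rw [G.comm]; omega)
      rw [G.comm y x, G.comm z x] at hz2
      have h3 := G.tri x z y
      rw [G.comm z y] at h3
      exact ih (G.d x z) (by omega) z (by omega) rfl

theorem bas1_sub (c : Cell1 G) (P : Cell1 G → Prop) (h : P c) : bas1 G c ∈ Sp P :=
  single_mem_Sp h

/-- Sets of bounded diameter can be avoided. -/
theorem base (G : GM X) (M : ℕ) : ∀ n : ℕ, ∃ E : ℕ, ∀ S : Set (Pt X n),
    (∀ p ∈ S, ∀ q ∈ S, D G p q ≤ M) → ∃ h, Good (Refn.id G n) E n S h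
  | 0 => ⟨0, fun S _ => ⟨0, by
      refine ⟨(good_empty 0 0).dg, (good_empty 0 0).ctl, ?_⟩
      intro c hc
      exact absurd hc (Nat.not_lt_zero _)⟩⟩
  | n + 1 => by
      obtain ⟨E2, hE2⟩ := base G M n
      classical
      refine ⟨2 * M + 2 + E2, fun S hS => ?_⟩
      -- the two projections
      have hP : ∀ p ∈ {p : Pt X n | ∃ x, ((x, p) : Pt X (n + 1)) ∈ S},
          ∀ q ∈ {p : Pt X n | ∃ x, ((x, p) : Pt X (n + 1)) ∈ S}, D G p q ≤ M := by
        rintro p ⟨x, hp⟩ q ⟨y, hq⟩
        have := hS _ hp _ hq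
        simp only [D] at this
        exact le_trans (le_max_right _ _) this
      obtain ⟨h2, g2⟩ := hE2 _ hP
      set SX : Set X := {x | ∃ p : Pt X n, ((x, p) : Pt X (n + 1)) ∈ S} with hSX
      have hSXM : ∀ x ∈ SX, ∀ y ∈ SX, G.d x y ≤ M := by
        rintro x ⟨p, hp⟩ y ⟨q, hq⟩
        have := hS _ hp _ hq
        simp only [D] at this
        exact le_trans (le_max_left _ _) this
      -- the point outside
      have hout : ∀ x : X, ∃ (t : X) (p : Ch1 G), t ∉ SX ∧
          bd1 G p = bas1 G (.inl x) + bas1 G (.inl t) ∧ G.d t x ≤ 2 * M + 1 ∧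
          p ∈ Sp (fun c : Cell1 G => deg1 G c = 1 ∧ ∀ v, vert1 G c v → G.d v x ≤ 2 * M + 1) := by
        intro x
        by_cases hx : x ∈ SX
        · obtain ⟨y, hy1, hy2⟩ := exists_out G x M
          obtain ⟨p, hp1, hp2⟩ := exists_path G y x
          refine ⟨y, p, fun hy => ?_, ?_, ?_, ?_⟩
          · have := hSXM x hx y hy; omega
          · rw [hp1]; abel
          · rw [G.comm]; omega
          · refine Sp_mono ?_ hp2
            intro c hc
            refine ⟨hc.1, fun v hv => ?_⟩
            have h3 := hc.2 v hv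
            rw [G.comm y x] at h3
            omega
        · refine ⟨x, 0, hx, ?_, ?_, Submodule.zero_mem _⟩
          · rw [map_zero, add_self_zero]
          · rw [G.self]; omega
      choose t p ht hp hd hsp using hout
      -- operators on the first factor
      let H1 : Ch1 G →ₗ[ZMod 2] Ch1 G := ext (fun c => match c with
        | .inl x => p x
        | .inr _ => 0)
      have H1l : ∀ x, H1 (bas1 G (.inl x)) = p x := fun x => ext_single _ _
      have H1r : ∀ e, H1 (bas1 G (.inr e)) = 0 := fun x => ext_single _ _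
      let P1 : Ch1 G →ₗ[ZMod 2] Ch1 G := LinearMap.id + bd1 G ∘ₗ H1 + H1 ∘ₗ bd1 G
      have P1a : ∀ a, P1 a = a + bd1 G (H1 a) + H1 (bd1 G a) := fun a => rfl
      have P1l : ∀ x, P1 (bas1 G (.inl x)) = bas1 G (.inl (t x)) := by
        intro x
        rw [P1a, H1l, bd1_inl, map_zero, add_zero, hp, ← add_assoc, add_self_zero, zero_add]
      have P1bd : ∀ a, bd1 G (P1 a) = P1 (bd1 G a) := by
        intro a
        rw [P1a, P1a, map_add, map_add, bd1_bd1, bd1_bd1, map_zero, add_zero, add_zero]
      -- supports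
      have sH1 : ∀ c : Cell1 G, H1 (bas1 G c) ∈ Sp (fun c' : Cell1 G => deg1 G c' = deg1 G c + 1 ∧
          ∀ v, vert1 G c' v → ∃ x, vert1 G c x ∧ G.d v x ≤ 2 * M + 1) := by
        rintro (x | e)
        · rw [H1l]
          refine Sp_mono ?_ (hsp x)
          rintro c' ⟨h3, h4⟩
          exact ⟨h3, fun v hv => ⟨x, rfl, h4 v hv⟩⟩
        · rw [H1r]; exact Submodule.zero_mem _
      have sP1 : ∀ c : Cell1 G, P1 (bas1 G c) ∈ Sp (fun c' : Cell1 G => deg1 G c' = deg1 G c ∧
          ∀ v, vert1 G c' v → ∃ x, vert1 G c x ∧ G.d v x ≤ 2 * M + 1) := by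
        rintro (x | e)
        · rw [P1l]
          apply single_mem_Sp
          refine ⟨rfl, ?_⟩
          rintro v rfl
          exact ⟨x, rfl, hd x⟩
        · rw [P1a, H1r, map_zero, add_zero, bd1_inr, map_add, H1l, H1l]
          apply Submodule.add_mem
          · apply single_mem_Sp
            refine ⟨rfl, fun v hv => ⟨v, hv, ?_⟩⟩
            rw [G.self]; omega
          · apply Submodule.add_mem
            · refine Sp_mono ?_ (hsp e.1.1)
              rintro c' ⟨h3, h4⟩
              exact ⟨h3, fun v hv => ⟨_, Or.inl rfl, h4 v hv⟩⟩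
            · refine Sp_mono ?_ (hsp e.1.2)
              rintro c' ⟨h3, h4⟩
              exact ⟨h3, fun v hv => ⟨_, Or.inr rfl, h4 v hv⟩⟩
      -- the operator
      let h : Ch G (n + 1) →ₗ[ZMod 2] Ch G (n + 1) := ext (fun c : Cell G (n + 1) =>
        cross G (H1 (bas1 G c.1)) (bas G c.2) + cross G (P1 (bas1 G c.1)) (h2 (bas G c.2)))
      have hbas : ∀ (c : Cell1 G) (τ : Cell G n), h (bas G (n := n + 1) (c, τ)) =
          cross G (H1 (bas1 G c)) (bas G τ) + cross G (P1 (bas1 G c)) (h2 (bas G τ)) :=
        fun c τ => ext_single _ _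
      have hcross : ∀ (a : Ch1 G) (b : Ch G n), h (cross G a b) =
          cross G (H1 a) b + cross G (P1 a) (h2 b) := by
        intro a b
        have hh : (cross G (n := n)).compr₂ h =
            (cross G).comp H1 + ((cross G).comp P1).compl₂ h2 := by
          apply linear_ext
          intro c
          apply linear_ext
          intro τ
          have h1 := hbas c τ
          rw [← cross_bas] at h1
          simpa using h1
        have h3 := LinearMap.congr_fun (LinearMap.congr_fun hh a) b
        simpa using h3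
      have hctl2 : Ctl G h2 (fun p => p) E2 := g2.ctl
      refine ⟨h, ?_, ?_, ?_⟩
      · -- degree
        rintro ⟨c, τ⟩
        rw [hbas]
        apply Submodule.add_mem
        · refine cross_mem_Sp G ?_ (sH1 c) (single_mem_Sp (p := fun τ' => τ' = τ) (a := τ) rfl)
          rintro c' τ' ⟨h3, -⟩ rfl
          simp only [deg]; omega
        · refine cross_mem_Sp G ?_ (sP1 c) (g2.dg τ)
          rintro c' τ' ⟨h3, -⟩ h4
          simp only [deg]; omega
      · -- control
        rintro ⟨c, τ⟩
        rw [hbas]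
        apply Submodule.add_mem
        · refine cross_mem_Sp G ?_ (sH1 c) (single_mem_Sp (p := fun τ' => τ' = τ) (a := τ) rfl)
          rintro c' τ' ⟨-, h3⟩ rfl ⟨v, q⟩ ⟨hv, hq⟩
          obtain ⟨x, hx, hxd⟩ := h3 v hv
          refine ⟨(x, q), ⟨hx, hq⟩, ?_⟩
          simp only [D, Refn.id, D_self]
          omega
        · refine cross_mem_Sp G ?_ (sP1 c) (hctl2 τ)
          rintro c' τ' ⟨-, h3⟩ h4 ⟨v, q⟩ ⟨hv, hq⟩
          obtain ⟨x, hx, hxd⟩ := h3 v hv
          obtain ⟨q', hq', hqd⟩ := h4 q hq
          refine ⟨(x, q'), ⟨hx, hq'⟩, ?_⟩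
          have hqd' : D G q q' ≤ E2 := hqd
          simp only [D, Refn.id]
          omega
      · -- avoidance
        rintro ⟨c, τ⟩ hc
        have key : (Refn.id G (n + 1)).κ (bas G (n := n + 1) (c, τ)) +
            bd G (h (bas G (n := n + 1) (c, τ))) + h (bd G (bas G (n := n + 1) (c, τ))) =
            cross G (P1 (bas1 G c)) (phi (Refn.id G n) h2 (bas G τ)) := by
          have e0 : (Refn.id G (n + 1)).κ (bas G (n := n + 1) (c, τ)) =
              cross G (bas1 G c) (bas G τ) := by rw [cross_bas]; rfl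
          have e5 : phi (Refn.id G n) h2 (bas G τ) =
              bas G τ + bd G (h2 (bas G τ)) + h2 (bd G (bas G τ)) := rfl
          rw [e0, e5, ← cross_bas]
          generalize bas1 G c = a
          generalize bas G τ = b
          have e1 : bd G (h (cross G a b)) = cross G (bd1 G (H1 a)) b + cross G (H1 a) (bd G b) +
              (cross G (P1 (bd1 G a)) (h2 b) + cross G (P1 a) (bd G (h2 b))) := by
            rw [hcross, map_add, bd_cross, bd_cross, P1bd]
          have e2 : h (bd G (cross G a b)) = cross G (H1 (bd1 G a)) b +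
              cross G (P1 (bd1 G a)) (h2 b) +
              (cross G (H1 a) (bd G b) + cross G (P1 a) (h2 (bd G b))) := by
            rw [bd_cross, map_add h, hcross, hcross]
          have e3 : cross G (P1 a) (b + bd G (h2 b) + h2 (bd G b)) =
              cross G (P1 a) b + cross G (P1 a) (bd G (h2 b)) + cross G (P1 a) (h2 (bd G b)) := by
            rw [map_add, map_add]
          have e4 : cross G (P1 a) b = cross G a b + cross G (bd1 G (H1 a)) b +
              cross G (H1 (bd1 G a)) b := by
            rw [P1a]; simp only [map_add, LinearMap.add_apply]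
          rw [e1, e2, e3, e4]
          have e6 := add_self_zero (cross G (H1 a) (bd G b))
          have e7 := add_self_zero (cross G (P1 (bd1 G a)) (h2 b))
          calc _ = cross G a b + cross G (bd1 G (H1 a)) b + cross G (H1 (bd1 G a)) b +
                cross G (P1 a) (bd G (h2 b)) + cross G (P1 a) (h2 (bd G b)) +
                (cross G (H1 a) (bd G b) + cross G (H1 a) (bd G b)) +
                (cross G (P1 (bd1 G a)) (h2 b) + cross G (P1 (bd1 G a)) (h2 b)) := by abel
            _ = _ := by rw [e6, e7, add_zero, add_zero]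
        rw [key]
        rcases c with x | e
        · rw [P1l]
          refine cross_mem_Sp G (q := fun _ => True) ?_
            (single_mem_Sp (p := fun c' : Cell1 G => c' = Sum.inl (t x)) (a := Sum.inl (t x)) rfl) ?_
          · rintro c' τ' rfl - ⟨v, q⟩ ⟨hv, hq⟩ hmem
            simp only [vert1] at hv
            subst hv
            exact ht x ⟨q, hmem⟩
          · rw [mem_Sp]; exact fun _ _ => trivial
        · have hdeg : deg G τ < n := by
            simp only [deg, deg1] at hc; omega
          refine cross_mem_Sp G (p := fun _ => True) ?_ ?_ (g2.av τ hdeg)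
          · rintro c' τ' - h3 ⟨v, q⟩ ⟨hv, hq⟩ hmem
            exact h3 q hq ⟨v, hmem⟩
          · rw [mem_Sp]; exact fun _ _ => trivial

/-- Bounded families are negligible. -/
theorem neg_of_bounded (𝒱 : MetricFamily) (h : 𝒱.Bounded) : Neg G 𝒱 := by
  obtain ⟨B, hB⟩ := h
  intro n ω
  obtain ⟨N, hN⟩ := exists_nat_ge B
  obtain ⟨E, hE⟩ := base G (ω N) n
  refine ⟨Refn.id G n, E, ?_⟩
  intro i S f hf
  apply hE
  intro p hp q hq
  exact (hf ⟨p, hp⟩ ⟨q, hq⟩ N).2 ((hB i _ _).trans hN)

/-- The space itself is not negligible. -/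
theorem not_neg (m : MetricSpace X) (ω : ℕ → ℕ)
    (h : ∀ (x y : X) (R : ℕ), (G.d x y ≤ R → dist x y ≤ ω R) ∧ (dist x y ≤ R → G.d x y ≤ ω R)) :
    ¬ Neg G (single X m) := by
  intro hN
  obtain ⟨ρ, E, hρ⟩ := hN 1 ω
  let f : ((Set.univ : Set (Pt X 1)) : Set (Pt X 1)) → (single X m).sp () := fun p => p.1.1
  obtain ⟨H, hH⟩ := hρ () Set.univ f (by
    intro s t R
    have h1 := h s.1.1 t.1.1 R
    have h2 : D G s.1 t.1 = G.d s.1.1 t.1.1 := by simp [D]
    rw [h2]
    exact h1)
  obtain ⟨x⟩ := G.ne
  let p : Pt X 1 := (x, ())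
  have h1 := hH.av (vc G p) (by simp [vc, deg, deg1])
  -- everything avoiding `univ` vanishes
  have h2 : ∀ y ∈ Av G (Set.univ : Set (Pt X 1)), y = 0 := by
    intro y hy
    unfold Av at hy
    rw [mem_Sp] at hy
    ext c
    by_contra hc
    obtain ⟨q, hq⟩ := vert_ex G c
    exact hy c hc q hq trivial
  have h3 := h2 _ h1
  have h4 : bd G (bas G (vc G p)) = 0 := by
    have h6 := bd_bas G (n := 0) (.inl x) ()
    rw [bd1_inl] at h6
    have h7 : (bd G (bas G (() : Cell G 0)) : Ch G 0) = 0 := by simp [bd]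
    rw [h7, map_zero, map_zero, LinearMap.zero_apply, add_zero] at h6
    exact h6
  rw [h4, map_zero, add_zero, ρ.vtx] at h3
  -- augmentation
  let ε : Ch G 1 →ₗ[ZMod 2] ZMod 2 := Finsupp.linearCombination (ZMod 2)
    (fun c : Cell G 1 => if deg G c = 0 then (1 : ZMod 2) else 0)
  have he : ∀ c : Cell G 1, ε (bas G c) = if deg G c = 0 then (1 : ZMod 2) else 0 := by
    intro c
    simp [ε]
  have h5 : ε ∘ₗ bd G = 0 := by
    apply linear_ext
    rintro ⟨x | e, u⟩
    · have h6 := bd_bas G (n := 0) (.inl x) u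
      simp only [bas] at h6
      rw [LinearMap.comp_apply, h6, bd1_inl]
      simp [bd]
    · have h6 := bd_bas G (n := 0) (.inr e) u
      simp only [bas] at h6
      rw [LinearMap.comp_apply, h6, bd1_inr]
      have h7 : (bd G (Finsupp.single u 1) : Ch G 0) = 0 := by simp [bd]
      rw [h7, map_zero, add_zero]
      simp only [map_add, LinearMap.add_apply]
      have h8 := cross_bas G (.inl e.1.1) u
      have h9 := cross_bas G (.inl e.1.2) u
      simp only [bas] at h8 h9
      rw [h8, h9]
      have h10 := he (Sum.inl e.1.1, u)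
      have h11 := he (Sum.inl e.1.2, u)
      simp only [bas] at h10 h11
      rw [h10, h11]
      simp [deg, deg1]
      exact CharTwo.add_self_eq_zero _
  have h12 : ε (bas G (vc G (ρ.b p)) + bd G (H (bas G (vc G p)))) = 0 := by rw [h3, map_zero]
  rw [map_add] at h12
  have h13 : ε (bd G (H (bas G (vc G p)))) = 0 := LinearMap.congr_fun h5 _
  rw [h13, add_zero, he] at h12
  have h14 : deg G (vc G (ρ.b p)) = 0 := by simp [vc, deg, deg1]
  rw [if_pos h14] at h12
  exact one_ne_zero h12

end Helper45.FDC
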