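import Mathlib

/-!
# Product chain complexes of a graph (mod 2)

`X` is the vertex set of a connected graph, given through its (pseudo)metric `G.d`.
`Ch G n` is the mod 2 cellular chain module of the `n`-fold product of the graph with itself.
-/

namespace Helper45.FDC

/-- A locally finite, unbounded, connected graph, given by its integer valued (pseudo)metric. -/
structure GM (X : Type) where
  d : X → X → ℕ
  self : ∀ x, d x x = 0
  comm : ∀ x y, d x y = d y x
  tri : ∀ x y z, d x z ≤ d x y + d y z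
  step : ∀ x y, 0 < d x y → ∃ z, d x z ≤ 1 ∧ d z y + 1 ≤ d x y
  fin : ∀ x n, {y | d x y ≤ n}.Finite
  unb : ∀ x n, ∃ y, n < d x y
  ne : Nonempty X

variable {X : Type} (G : GM X)

/-- Edges: pairs at distance at most one. -/
def Edge : Type := {p : X × X // G.d p.1 p.2 ≤ 1}

/-- Cells of the graph: vertices and edges. -/
abbrev Cell1 : Type := X ⊕ Edge G

/-- Cells of the `n`-fold product. -/
def Cell : ℕ → Type
  | 0 => Unit
  | n + 1 => Cell1 G × Cell n

/-- Points of the `n`-fold product. -/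
def Pt (X : Type) : ℕ → Type
  | 0 => Unit
  | n + 1 => X × Pt X n

/-- The sup distance on the `n`-fold product. -/
def D : {n : ℕ} → Pt X n → Pt X n → ℕ
  | 0, _, _ => 0
  | _ + 1, p, q => max (G.d p.1 q.1) (D p.2 q.2)

theorem D_self : ∀ {n : ℕ} (p : Pt X n), D G p p = 0
  | 0, _ => rfl
  | _ + 1, p => by simp [D, G.self, D_self p.2]

theorem D_comm : ∀ {n : ℕ} (p q : Pt X n), D G p q = D G q p
  | 0, _, _ => rfl
  | _ + 1, p, q => by simp [D, G.comm p.1 q.1, D_comm p.2 q.2]

theorem D_tri : ∀ {n : ℕ} (p q r : Pt X n), D G p r ≤ D G p q + D G q r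
  | 0, _, _, _ => by simp [D]
  | _ + 1, p, q, r => by
      have h1 := G.tri p.1 q.1 r.1
      have h2 := D_tri p.2 q.2 r.2
      simp only [D]
      omega

/-- Vertices of a cell of the graph. -/
def vert1 : Cell1 G → X → Prop
  | .inl x, y => y = x
  | .inr e, y => y = e.1.1 ∨ y = e.1.2

/-- Vertices of a product cell. -/
def vert : {n : ℕ} → Cell G n → Pt X n → Prop
  | 0, _, _ => True
  | _ + 1, c, p => vert1 G c.1 p.1 ∧ vert c.2 p.2

def deg1 : Cell1 G → ℕ
  | .inl _ => 0
  | .inr _ => 1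

def deg : {n : ℕ} → Cell G n → ℕ
  | 0, _ => 0
  | _ + 1, c => deg1 G c.1 + deg c.2

theorem vert1_ex (c : Cell1 G) : ∃ x, vert1 G c x := by
  rcases c with x | e
  · exact ⟨x, rfl⟩
  · exact ⟨e.1.1, Or.inl rfl⟩

theorem vert_ex : ∀ {n : ℕ} (c : Cell G n), ∃ p, vert G c p
  | 0, _ => ⟨(), trivial⟩
  | _ + 1, c => by
      obtain ⟨x, hx⟩ := vert1_ex G c.1
      obtain ⟨p, hp⟩ := vert_ex c.2
      exact ⟨(x, p), hx, hp⟩

theorem vert1_near (c : Cell1 G) {x y : X} (hx : vert1 G c x) (hy : vert1 G c y) :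
    G.d x y ≤ 1 := by
  rcases c with z | e
  · simp only [vert1] at hx hy
    subst hx; subst hy
    simp [G.self]
  · simp only [vert1] at hx hy
    rcases hx with rfl | rfl <;> rcases hy with rfl | rfl
    · simp [G.self]
    · exact e.2
    · rw [G.comm]; exact e.2
    · simp [G.self]

theorem vert_near : ∀ {n : ℕ} (c : Cell G n) {p q : Pt X n}, vert G c p → vert G c q →
    D G p q ≤ 1
  | 0, _, _, _, _, _ => by simp [D]
  | _ + 1, c, p, q, hp, hq => by
      simp only [D]
      exact max_le (vert1_near G c.1 hp.1 hq.1) (vert_near c.2 hp.2 hq.2)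

/-- Mod 2 chains of the graph. -/
abbrev Ch1 : Type := Cell1 G →₀ ZMod 2

/-- Mod 2 chains of the product. -/
abbrev Ch (n : ℕ) : Type := Cell G n →₀ ZMod 2

/-- basis chain -/
noncomputable abbrev bas1 (c : Cell1 G) : Ch1 G := Finsupp.single c 1

noncomputable abbrev bas {n : ℕ} (c : Cell G n) : Ch G n := Finsupp.single c 1

theorem add_self_zero {α : Type*} (x : α →₀ ZMod 2) : x + x = 0 := by
  ext a
  simp only [Finsupp.coe_add, Pi.add_apply, Finsupp.coe_zero, Pi.zero_apply]
  exact CharTwo.add_self_eq_zero _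

/-- The cross product of chains. -/
noncomputable def cross {n : ℕ} : Ch1 G →ₗ[ZMod 2] Ch G n →ₗ[ZMod 2] Ch G (n + 1) :=
  Finsupp.linearCombination (ZMod 2) (fun c : Cell1 G =>
    (Finsupp.lmapDomain (ZMod 2) (ZMod 2) (fun τ : Cell G n => ((c, τ) : Cell G (n + 1)))))

theorem cross_bas {n : ℕ} (c : Cell1 G) (τ : Cell G n) :
    cross G (bas1 G c) (bas G τ) = bas G (n := n + 1) (c, τ) := by
  simp only [cross, bas1, bas, Finsupp.linearCombination_single, one_smul]
  exact Finsupp.mapDomain_single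

/-- Linear extension of a function on cells. -/
noncomputable def ext {α β : Type} (f : α → (β →₀ ZMod 2)) : (α →₀ ZMod 2) →ₗ[ZMod 2] (β →₀ ZMod 2) :=
  Finsupp.linearCombination (ZMod 2) f

theorem ext_single {α β : Type} (f : α → (β →₀ ZMod 2)) (a : α) :
    ext f (Finsupp.single a 1) = f a := by
  simp [ext]

/-- The submodule of chains supported on cells with property `p`. -/
def Sp {α : Type} (p : α → Prop) : Submodule (ZMod 2) (α →₀ ZMod 2) :=
  Finsupp.supported (ZMod 2) (ZMod 2) {a | p a}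

theorem mem_Sp {α : Type} {p : α → Prop} {x : α →₀ ZMod 2} :
    x ∈ Sp p ↔ ∀ a, x a ≠ 0 → p a := by
  simp only [Sp, Finsupp.mem_supported]
  constructor
  · intro h a ha
    exact h (by simpa using ha)
  · intro h a ha
    exact h a (by simpa using ha)

theorem single_mem_Sp {α : Type} {p : α → Prop} {a : α} (h : p a) :
    (Finsupp.single a (1 : ZMod 2)) ∈ Sp p := by
  rw [mem_Sp]
  intro b hb
  by_cases hab : a = b
  · exact hab ▸ h
  · simp [hab] at hb

theorem Sp_mono {α : Type} {p q : α → Prop} (h : ∀ a, p a → q a) : Sp p ≤ Sp q := by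
  intro x hx
  rw [mem_Sp] at hx ⊢
  exact fun a ha => h a (hx a ha)

/-- To show that a linear map sends `Sp p` to a submodule it suffices to look at basis chains. -/
theorem map_Sp {α : Type} {M : Type*} [AddCommGroup M] [Module (ZMod 2) M]
    (f : (α →₀ ZMod 2) →ₗ[ZMod 2] M) (p : α → Prop) (T : Submodule (ZMod 2) M)
    (h : ∀ a, p a → f (Finsupp.single a 1) ∈ T) {x : α →₀ ZMod 2} (hx : x ∈ Sp p) : f x ∈ T := by
  have hs : Sp p = Submodule.span (ZMod 2) ((fun i => Finsupp.single i (1 : ZMod 2)) '' {a | p a}) :=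
    Finsupp.supported_eq_span_single (ZMod 2) {a | p a}
  rw [hs] at hx
  induction hx using Submodule.span_induction with
  | mem x hx =>
      obtain ⟨a, ha, rfl⟩ := hx
      exact h a ha
  | zero => simp
  | add x y _ _ hx hy => rw [map_add]; exact T.add_mem hx hy
  | smul r x _ hx => rw [map_smul]; exact T.smul_mem r hx

theorem linear_ext {α : Type} {M : Type*} [AddCommMonoid M] [Module (ZMod 2) M]
    {f g : (α →₀ ZMod 2) →ₗ[ZMod 2] M} (h : ∀ a, f (Finsupp.single a 1) = g (Finsupp.single a 1)) :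
    f = g := by
  apply Finsupp.lhom_ext'
  intro a
  apply LinearMap.ext_ring
  simpa using h a

theorem cross_mem_Sp {n : ℕ} {p : Cell1 G → Prop} {q : Cell G n → Prop} {r : Cell G (n + 1) → Prop}
    (h : ∀ c τ, p c → q τ → r (c, τ)) {a : Ch1 G} {b : Ch G n} (ha : a ∈ Sp p) (hb : b ∈ Sp q) :
    cross G a b ∈ Sp r := by
  have h1 : (cross G).flip b a ∈ Sp r := by
    apply map_Sp ((cross G).flip b) p _ _ ha
    intro c hc
    rw [LinearMap.flip_apply]
    apply map_Sp (cross G (Finsupp.single c 1)) q _ _ hb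
    intro τ hτ
    have h2 := cross_bas G c τ
    simp only [bas1, bas] at h2
    rw [h2]
    exact single_mem_Sp (h c τ hc hτ)
  simpa using h1

/-- The boundary of a cell of the graph. -/
noncomputable def bdc1 : Cell1 G → Ch1 G
  | .inl _ => 0
  | .inr e => bas1 G (.inl e.1.1) + bas1 G (.inl e.1.2)

/-- The boundary operator of the graph. -/
noncomputable def bd1 : Ch1 G →ₗ[ZMod 2] Ch1 G := ext (bdc1 G)

theorem bd1_inl (x : X) : bd1 G (bas1 G (.inl x)) = 0 := by
  simp only [bd1, bas1]
  rw [ext_single]; rfl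

theorem bd1_inr (e : Edge G) :
    bd1 G (bas1 G (.inr e)) = bas1 G (.inl e.1.1) + bas1 G (.inl e.1.2) := by
  simp only [bd1, bas1]
  rw [ext_single]; rfl

/-- The boundary operator of the product. -/
noncomputable def bd : {n : ℕ} → Ch G n →ₗ[ZMod 2] Ch G n
  | 0 => 0
  | n + 1 => ext (fun c : Cell G (n + 1) =>
      cross G (bd1 G (bas1 G c.1)) (bas G c.2) + cross G (bas1 G c.1) (bd (bas G c.2)))

theorem bd_bas {n : ℕ} (c : Cell1 G) (τ : Cell G n) :
    bd G (bas G (n := n + 1) (c, τ)) =
      cross G (bd1 G (bas1 G c)) (bas G τ) + cross G (bas1 G c) (bd G (bas G τ)) := by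
  simp only [bd]
  exact ext_single _ _

theorem bd_cross {n : ℕ} (a : Ch1 G) (b : Ch G n) :
    bd G (cross G a b) = cross G (bd1 G a) b + cross G a (bd G b) := by
  have h : (cross G (n := n)).compr₂ (bd G) =
      (cross G).comp (bd1 G) + (cross G).compl₂ (bd G) := by
    apply linear_ext
    intro c
    apply linear_ext
    intro τ
    have h1 := bd_bas G c τ
    rw [← cross_bas] at h1
    simpa using h1
  have h2 := LinearMap.congr_fun (LinearMap.congr_fun h a) b
  simpa using h2

theorem bd1_bd1 (a : Ch1 G) : bd1 G (bd1 G a) = 0 := by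
  have h : (bd1 G).comp (bd1 G) = 0 := by
    apply linear_ext
    rintro (x | e)
    · have := bd1_inl G x
      simp only [LinearMap.comp_apply, LinearMap.zero_apply]
      rw [this, map_zero]
    · have := bd1_inr G e
      simp only [LinearMap.comp_apply, LinearMap.zero_apply]
      rw [this, map_add, bd1_inl, bd1_inl, add_zero]
  have h2 := LinearMap.congr_fun h a
  simpa using h2

theorem bd_bd : ∀ {n : ℕ} (x : Ch G n), bd G (bd G x) = 0
  | 0, x => by simp [bd]
  | n + 1, x => by
      have ih : ∀ y : Ch G n, bd G (bd G y) = 0 := bd_bd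
      have h : (bd G (n := n + 1)).comp (bd G) = 0 := by
        apply linear_ext
        rintro ⟨c, τ⟩
        simp only [LinearMap.comp_apply, LinearMap.zero_apply]
        have h1 := bd_bas G c τ
        simp only [bas] at h1
        rw [h1, map_add, bd_cross, bd_cross, bd1_bd1, ih]
        simp only [map_zero, LinearMap.zero_apply, zero_add, add_zero]
        exact add_self_zero _
      have h2 := LinearMap.congr_fun h x
      simpa using h2

theorem bdc1_sub (c : Cell1 G) :
    bd1 G (bas1 G c) ∈ Sp (fun c' : Cell1 G => (∀ x, vert1 G c' x → vert1 G c x) ∧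
      deg1 G c' + 1 = deg1 G c) := by
  rcases c with x | e
  · rw [bd1_inl]; exact Submodule.zero_mem _
  · rw [bd1_inr]
    apply Submodule.add_mem
    · apply single_mem_Sp
      refine ⟨?_, rfl⟩
      intro x hx
      exact Or.inl hx
    · apply single_mem_Sp
      refine ⟨?_, rfl⟩
      intro x hx
      exact Or.inr hx

/-- The faces of a cell have their vertices among those of the cell, and degree one less. -/
theorem bd_sub : ∀ {n : ℕ} (c : Cell G n),
    bd G (bas G c) ∈ Sp (fun c' : Cell G n => (∀ p, vert G c' p → vert G c p) ∧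
      deg G c' + 1 = deg G c)
  | 0, _ => by simp only [bd, LinearMap.zero_apply]; exact Submodule.zero_mem _
  | n + 1, (c, τ) => by
      rw [bd_bas]
      apply Submodule.add_mem
      · refine cross_mem_Sp G ?_ (bdc1_sub G c)
          (single_mem_Sp (p := fun τ' => τ' = τ) (a := τ) rfl)
        rintro c' τ' ⟨h1, h2⟩ rfl
        refine ⟨fun p hp => ⟨h1 _ hp.1, hp.2⟩, ?_⟩
        simp only [deg]; omega
      · refine cross_mem_Sp G ?_ (single_mem_Sp (p := fun c' => c' = c) (a := c) rfl)
          (bd_sub τ)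
        rintro c' τ' rfl ⟨h1, h2⟩
        refine ⟨fun p hp => ⟨hp.1, h1 _ hp.2⟩, ?_⟩
        simp only [deg]; omega

/-- Chains avoiding a set of points. -/
def Av {n : ℕ} (S : Set (Pt X n)) : Submodule (ZMod 2) (Ch G n) :=
  Sp (fun c : Cell G n => ∀ p, vert G c p → p ∉ S)

theorem bd_Av {n : ℕ} {S : Set (Pt X n)} {x : Ch G n} (hx : x ∈ Av G S) : bd G x ∈ Av G S := by
  apply map_Sp (bd G) _ _ _ hx
  intro c hc
  exact Sp_mono (fun c' hc' p hp => hc p (hc'.1 p hp)) (bd_sub G c)

theorem Av_anti {n : ℕ} {S T : Set (Pt X n)} (h : S ⊆ T) : Av G T ≤ Av G S := by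
  apply Sp_mono
  intro c hc p hp hS
  exact hc p hp (h hS)

/-- finitely many cells near a point -/
theorem near_fin1 (x : X) (N : ℕ) : {c : Cell1 G | ∃ y, vert1 G c y ∧ G.d x y ≤ N}.Finite := by
  have h0 := G.fin x (N + 1)
  have h1 : {c : Cell1 G | ∃ y, vert1 G c y ∧ G.d x y ≤ N} ⊆
      (Sum.inl '' {y | G.d x y ≤ N + 1}) ∪
      (Sum.inr '' {e : Edge G | G.d x e.1.1 ≤ N + 1 ∧ G.d x e.1.2 ≤ N + 1}) := by
    rintro (z | e) ⟨y, hy, hd⟩
    · left
      simp only [vert1] at hy
      subst hy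
      exact ⟨y, by simp only [Set.mem_ofPred_eq]; omega, rfl⟩
    · right
      refine ⟨e, ?_, rfl⟩
      have h2 := vert1_near G (.inr e) (y := e.1.1) hy (Or.inl rfl)
      have h3 := vert1_near G (.inr e) (y := e.1.2) hy (Or.inr rfl)
      have h4 := G.tri x y e.1.1
      have h5 := G.tri x y e.1.2
      simp only [Set.mem_ofPred_eq]
      omega
  refine Set.Finite.subset (Set.Finite.union (h0.image _) (Set.Finite.image _ ?_)) h1
  have h6 : Set.InjOn (fun e : Edge G => e.1) {e : Edge G | G.d x e.1.1 ≤ N + 1 ∧ G.d x e.1.2 ≤ N + 1} :=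
    fun a _ b _ h => Subtype.ext h
  apply Set.Finite.of_finite_image _ h6
  apply Set.Finite.subset (h0.prod h0)
  rintro _ ⟨e, he, rfl⟩
  exact he

theorem near_fin : ∀ {n : ℕ} (p : Pt X n) (N : ℕ),
    {c : Cell G n | ∃ q, vert G c q ∧ D G p q ≤ N}.Finite
  | 0, _, _ => by
      have : Finite (Cell G 0) := inferInstanceAs (Finite Unit)
      exact Set.toFinite _
  | n + 1, (x, p), N => by
      have h1 := near_fin1 G x N
      have h2 := near_fin p N
      apply Set.Finite.subset (h1.prod h2)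
      rintro ⟨c, τ⟩ ⟨⟨y, q⟩, hv, hd⟩
      simp only [D] at hd
      exact ⟨⟨y, hv.1, le_trans (le_max_left _ _) hd⟩, ⟨q, hv.2, le_trans (le_max_right _ _) hd⟩⟩

end Helper45.FDC
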