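import Pool.Agent.Helper45_FDC.Merge

/-!
# The merge lemma for ranges and the core theorem
-/

namespace Helper45.FDC

variable {X : Type} {G : GM X}

/-- Insert the base point `o` in second position. -/
noncomputable def ins (o : X) {n : ℕ} : Ch G (n + 1) →ₗ[ZMod 2] Ch G (n + 2) :=
  ext (fun c : Cell G (n + 1) => bas G (mkC c.1 (mkC (.inl o) c.2)))

theorem ins_bas (o : X) {n : ℕ} (c : Cell1 G) (τ : Cell G n) :
    ins o (bas G (mkC c τ)) = bas G (mkC c (mkC (.inl o) τ)) := ext_single _ _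

theorem ins_cross (o : X) {n : ℕ} (a : Ch1 G) (b : Ch G n) :
    ins o (cross G a b) = cross G a (cross G (bas1 G (.inl o)) b) := by
  have h : (cross G (n := n)).compr₂ (ins o) =
      (cross G (n := n + 1)).compl₂ (cross G (bas1 G (.inl o))) := by
    apply linear_ext
    intro c
    apply linear_ext
    intro τ
    have h1 := ins_bas (G := G) o c τ
    rw [← cross_bas', ← cross_bas', ← cross_bas'] at h1
    simpa using h1
  have h2 := LinearMap.congr_fun (LinearMap.congr_fun h a) b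
  simpa using h2

theorem ins_bd (o : X) {n : ℕ} (x : Ch G (n + 1)) : bd G (ins o x) = ins o (bd G x) := by
  have h : bd G ∘ₗ ins o (n := n) = ins o ∘ₗ bd G := by
    apply linear_ext
    intro x
    obtain ⟨c, τ, rfl⟩ := cell_eq x
    have h1 := cross_bas' (G := G) c τ
    simp only [bas] at h1
    rw [LinearMap.comp_apply, LinearMap.comp_apply, ← h1, ins_cross, bd_cross, bd_cross,
      bd_cross, bd1_inl, map_zero, LinearMap.zero_apply, zero_add, map_add, ins_cross, ins_cross]
  exact LinearMap.congr_fun h x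

/-- The point map of `ins`. -/
def insP (o : X) {n : ℕ} : Pt X (n + 1) → Pt X (n + 2) := fun p => mkP p.1 (mkP o p.2)

theorem insP_ce (o : X) {n : ℕ} : CE G (fun R => R) (insP o (n := n)) := by
  intro p q R
  simp only [D, insP, mkP, G.self]
  constructor <;> intro h <;> omega

theorem ins_ctl (o : X) {n : ℕ} : Ctl G (ins o (n := n)) (insP o) 0 := by
  intro x
  obtain ⟨c, τ, rfl⟩ := cell_eq x
  rw [ins_bas]
  apply single_mem_Sp
  rintro ⟨x, y, z⟩ ⟨hx, hy, hz⟩
  have hy' : y = o := hy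
  subst hy'
  exact ⟨mkP x z, ⟨hx, hz⟩, by rw [insP, mkP, mkP]; exact (D_self G _).le⟩

theorem CE.comp {l m n : ℕ} {ω ω' : ℕ → ℕ} {b : Pt X m → Pt X n} {b' : Pt X l → Pt X m}
    (h : CE G ω b) (h' : CE G ω' b') :
    CE G (fun R => max (ω (ω' R)) (ω' (ω R))) (fun p => b (b' p)) := by
  intro p q R
  constructor
  · intro hd
    exact le_trans ((h _ _ _).1 ((h' _ _ _).1 hd)) (le_max_left _ _)
  · intro hd
    exact le_trans ((h' _ _ _).2 ((h _ _ _).2 hd)) (le_max_right _ _)

variable (s : Sq G)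

/-- The merged refinement. -/
noncomputable def mrg {n : ℕ} (o : X) (γ : Refn G n) (η : Refn G (n + 2)) : Refn G (n + 1) where
  κ := Θ0 s γ ∘ₗ η.κ ∘ₗ ins o
  b := fun p => b3 s γ (η.b (insP o p))
  ω := fun R => max ((ω3 s γ) (max (η.ω R) (η.ω R))) (max (η.ω ((ω3 s γ) R)) (η.ω ((ω3 s γ) R)))
  E := (max (s.ω 1) γ.E) + (ω3 s γ) (η.E + η.ω 0)
  ce := CE.comp (b3_ce s γ) (CE.comp η.ce (insP_ce o))
  comm := by
    have hK : ∀ x : Ch G (n + 1), η.κ (ins o x) ∈ Sp (KD1 (G := G) (n := n)) := by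
      intro x
      have h2 : x ∈ Sp (fun _ : Cell G (n + 1) => True) := by
        rw [mem_Sp]; exact fun _ _ => trivial
      apply map_Sp (η.κ ∘ₗ ins o) _ _ _ h2
      intro x _
      obtain ⟨c, τ, rfl⟩ := cell_eq x
      have h3 := ins_bas (G := G) o c τ
      simp only [bas] at h3
      rw [LinearMap.comp_apply, h3]
      refine Sp_mono ?_ (η.sdk _)
      rintro c' ⟨h4, h5, -⟩
      simp only [KD1, h4, h5, mkC]
      rcases c with x | e <;> simp [deg1]
    intro x
    simp only [LinearMap.comp_apply]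
    rw [Θ0_comm s γ (hK x), η.comm, ins_bd]
  ctl := Ctl.comp G (Θ0_ctl s γ) (Ctl.comp G η.ctl (ins_ctl o) η.ce) (b3_ce s γ)
  sdk := by
    intro x
    obtain ⟨c, τ, rfl⟩ := cell_eq x
    rw [LinearMap.comp_apply, LinearMap.comp_apply, ins_bas]
    apply map_Sp (Θ0 s γ) _ _ _ (η.sdk _)
    intro x' hx'
    obtain ⟨d, x'', rfl⟩ := cell_eq x'
    obtain ⟨d', τ', rfl⟩ := cell_eq x''
    have h1 := Θ0_bas s γ d d' τ'
    simp only [bas] at h1
    rw [h1]
    refine cross_mem_Sp G ?_ (k2_sub s d d') (γ.sdk τ')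
    rintro c'' τ'' ⟨h3, -⟩ h4
    obtain ⟨h5, h6, h7⟩ := hx'
    have h5' : deg1 G d = deg1 G c := h5
    have h6' : deg1 G d' = deg1 G (.inl o) := h6
    have h7' : sd G τ' τ := h7
    refine ⟨?_, sd_trans G h4 h7'⟩
    show deg1 G c'' = deg1 G c
    rw [h3, h5', h6']
    simp [deg1]
  vtx := by
    intro p
    rw [LinearMap.comp_apply, LinearMap.comp_apply]
    have h1 : vc G p = mkC (.inl p.1) (vc G p.2) := rfl
    rw [h1, ins_bas]
    have h2 : mkC (.inl p.1) (mkC (.inl o) (vc G p.2)) = vc G (insP o p) := rfl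
    rw [h2, η.vtx]
    have h3 : vc G (η.b (insP o p)) = mkC (.inl (η.b (insP o p)).1)
      (mkC (.inl (η.b (insP o p)).2.1) (vc G (η.b (insP o p)).2.2)) := rfl
    rw [h3, Θ0_bas]
    simp only [k2]
    rw [γ.vtx, cross_bas']
    rfl

include s in
/-- **The merge lemma**. -/
theorem merge {𝒱 : MetricFamily} {n k : ℕ} (h2 : Range G 𝒱 (n + 2) k)
    (h0 : Range G 𝒱 n (k - 1)) : Range G 𝒱 (n + 1) k := by
  obtain ⟨o⟩ := G.ne
  intro ω
  -- slices
  have hsl : ∀ w : X, CE G (fun R => R) (fun z : Pt X n => mkP w z) := by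
    intro w p q R
    simp only [D, mkP, G.self]
    constructor <;> intro h <;> omega
  obtain ⟨γ, Eγ, hγ⟩ := h0 (pull ω (fun R => R) (2 * s.ω 1))
  obtain ⟨η, Eη, hη⟩ := h2 (pull ω (ω3 s γ) (max (s.ω 1) (max γ.E Eγ)))
  refine ⟨mrg s o γ η, (max (s.ω 1) (max γ.E Eγ)) + (ω3 s γ) (Eη + η.ω 0), ?_⟩
  intro i S f hf
  -- the operators for the slices
  have hg : ∀ c c' : Cell1 G, ∃ h, Good γ Eγ (k - 1)
      (thick G (fun z : Pt X n => mkP (w0 s c c') z) (2 * s.ω 1) S) h := by
    intro c c'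
    obtain ⟨f', hf'⟩ := hf.pull (E := 2 * s.ω 1) (hsl (w0 s c c'))
    exact hγ i _ f' hf'
  choose hs hhs using hg
  -- the operator on the split product
  obtain ⟨f3, hf3⟩ := hf.pull (E := max (s.ω 1) (max γ.E Eγ)) (b3_ce s γ)
  obtain ⟨H, hH⟩ := hη i _ f3 hf3
  -- control of the total realization
  have hΘctl : Ctl G (Θ0 s γ + QQ s hs) (b3 s γ) (max (s.ω 1) (max γ.E Eγ)) := by
    apply Ctl.add
    · exact Ctl.mono G (Θ0_ctl s γ) (by omega)
    · exact Ctl.mono G (QQ_ctl s γ hs (fun c c' => (hhs c c').ctl)) (by omega)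
  have hΘdg : Dg G (Θ0 s γ + QQ s hs) 0 := Θ_dg s γ hs (fun c c' => (hhs c c').dg)
  have hinsdg : Dg G (ins (G := G) o (n := n)) 0 := by
    intro x
    obtain ⟨c, τ, rfl⟩ := cell_eq x
    rw [ins_bas]
    apply single_mem_Sp
    simp [deg, mkC, deg1]
  have hK : ∀ x : Cell G (n + 1), η.κ (ins o (bas G x)) ∈ Sp (KD1 (G := G) (n := n)) := by
    intro x
    obtain ⟨c, τ, rfl⟩ := cell_eq x
    rw [ins_bas]
    refine Sp_mono ?_ (η.sdk _)
    rintro c' ⟨h4, h5, -⟩
    simp only [KD1, h4, h5, mkC]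
    rcases c with x | e <;> simp [deg1]
  refine ⟨(Θ0 s γ + QQ s hs) ∘ₗ H ∘ₗ ins o, ?_, ?_, ?_⟩
  · have h1 := Dg.comp G hΘdg (Dg.comp G hH.dg hinsdg)
    simpa using h1
  · exact Ctl.comp G hΘctl (Ctl.comp G hH.ctl (ins_ctl o) η.ce) (b3_ce s γ)
  · intro x hx
    set T := Θ0 s γ + QQ s hs with hT
    have e1 : (mrg s o γ η).κ (bas G x) = T (η.κ (ins o (bas G x))) := by
      rw [hT, LinearMap.add_apply, QQ_KD1 s hs (hK x), add_zero]
      rfl
    have e2 : (T ∘ₗ H ∘ₗ ins o) (bas G x) = T (H (ins o (bas G x))) := rfl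
    have e3 : (T ∘ₗ H ∘ₗ ins o) (bd G (bas G x)) = T (H (bd G (ins o (bas G x)))) := by
      rw [ins_bd]; rfl
    rw [e1, e2, e3]
    have m1 : T (η.κ (ins o (bas G x)) + bd G (H (ins o (bas G x))) +
        H (bd G (ins o (bas G x)))) ∈ Av G S := by
      apply Ctl.av hΘctl
      obtain ⟨c, τ, rfl⟩ := cell_eq x
      rw [ins_bas]
      apply hH.av
      have : deg G (mkC c (mkC (Sum.inl o) τ)) = deg G (mkC c τ) := by
        simp [deg, mkC, deg1]
      rw [this]
      exact hx
    have m2 : bd G (T (H (ins o (bas G x)))) + T (bd G (H (ins o (bas G x)))) ∈ Av G S := by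
      apply Θ_comm s γ hs hhs
      have h5 := Dg.comp G hH.dg hinsdg x
      refine Sp_mono ?_ h5
      intro c' hc'
      omega
    have m3 := Submodule.add_mem _ m1 m2
    have e4 : T (η.κ (ins o (bas G x)) + bd G (H (ins o (bas G x))) +
        H (bd G (ins o (bas G x)))) +
        (bd G (T (H (ins o (bas G x)))) + T (bd G (H (ins o (bas G x))))) =
        T (η.κ (ins o (bas G x))) + bd G (T (H (ins o (bas G x)))) +
        T (H (bd G (ins o (bas G x)))) := by
      rw [map_add T, map_add T]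
      have e5 := add_self_zero (T (bd G (H (ins o (bas G x)))))
      calc _ = T (η.κ (ins o (bas G x))) + bd G (T (H (ins o (bas G x)))) +
          T (H (bd G (ins o (bas G x)))) +
          (T (bd G (H (ins o (bas G x)))) + T (bd G (H (ins o (bas G x))))) := by abel
        _ = _ := by rw [e5, add_zero]
    rw [e4] at m3
    exact m3

include s in
/-- Recovering the full range by merging. -/
theorem neg_of_range {𝒱 : MetricFamily} : ∀ d : ℕ, (∀ n, Range G 𝒱 n (n - d)) → Neg G 𝒱
  | 0, h => fun n => h n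
  | d + 1, h => by
      apply neg_of_range d
      intro n
      induction n with
      | zero => exact (h 0).mono (by omega)
      | succ n ih =>
          have h1 := merge s ((h (n + 2)).mono (k' := n + 1 - d) (by omega))
            (ih.mono (k' := n + 1 - d - 1) (by omega))
          exact h1

include s in
/-- **Core theorem**: families with weak finite decomposition complexity are negligible. -/
theorem neg_of_weakFDC {𝒱 : MetricFamily} (h : HasWeakFDC 𝒱) : Neg G 𝒱 := by
  apply h {𝒴 | Neg G 𝒴}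
  · intro 𝒴 hY
    exact neg_of_bounded 𝒴 hY
  · rintro 𝒴 ⟨d, hd⟩
    apply neg_of_range s d
    intro n
    exact union_range d hd n

include s in
/-- **Main theorem**: an unbounded connected locally finite graph whose square embeds coarsely
into it does not have weak finite decomposition complexity, in any coarsely equivalent metric. -/
theorem not_weakFDC (m : MetricSpace X) (ω : ℕ → ℕ)
    (h : ∀ (x y : X) (R : ℕ), (G.d x y ≤ R → dist x y ≤ ω R) ∧ (dist x y ≤ R → G.d x y ≤ ω R)) :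
    ¬ HasWeakFDC (single X m) :=
  fun hw => not_neg m ω h (neg_of_weakFDC s hw)

end Helper45.FDC
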