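import Mathlib

/-!
# Weak finite decomposition complexity and Property A: definitions
-/

namespace Helper45.FDC

/-- A metric family: a set of metric spaces (indexed by a type `ι`). -/
structure MetricFamily where
  ι : Type
  sp : ι → Type
  inst : ∀ i, MetricSpace (sp i)

attribute [instance] MetricFamily.inst

/-- A metric family is bounded if the diameters of its members are uniformly bounded. -/
def MetricFamily.Bounded (𝒳 : MetricFamily) : Prop :=
  ∃ D : ℝ, ∀ i, ∀ x y : 𝒳.sp i, dist x y ≤ D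

/-- The distance between the two subsets is larger than `r`: the infimum of `dist x y` over
`x ∈ A`, `y ∈ B` is larger than `r` (this is vacuous if one of them is empty). -/
def Separated {X : Type} [MetricSpace X] (r : ℝ) (A B : Set X) : Prop :=
  ∃ s : ℝ, r < s ∧ ∀ x ∈ A, ∀ y ∈ B, s ≤ dist x y

/-- The subset `A` is an `r`-disjoint union of (subspaces isometric to) members of `𝒴`. -/
def IsDisjointUnion {X : Type} [MetricSpace X] (r : ℝ) (A : Set X) (𝒴 : MetricFamily) : Prop :=
  ∃ (J : Type) (B : J → Set X), (⋃ j, B j) = A ∧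
    (∀ i j, i ≠ j → Separated r (B i) (B j)) ∧
    ∀ j, ∃ k : 𝒴.ι, Nonempty (B j ≃ᵢ 𝒴.sp k)

/-- `𝒳` is `(d, r)`-decomposable over `𝒴`: each member of `𝒳` is a union of `d + 1` subsets,
each of which is an `r`-disjoint union of members of `𝒴`. -/
def Decomposable (d : ℕ) (r : ℝ) (𝒳 𝒴 : MetricFamily) : Prop :=
  ∀ i, ∃ A : Fin (d + 1) → Set (𝒳.sp i), (⋃ k, A k) = Set.univ ∧
    ∀ k, IsDisjointUnion r (A k) 𝒴

/-- `𝒳` weakly decomposes over the collection `C` of metric families. -/
def WeaklyDecomposes (𝒳 : MetricFamily) (C : Set MetricFamily) : Prop :=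
  ∃ d : ℕ, ∀ r : ℝ, 0 < r → ∃ 𝒴 ∈ C, Decomposable d r 𝒳 𝒴

/-- Weak finite decomposition complexity: membership in the smallest collection of metric
families that contains all bounded families and every family that weakly decomposes over it. -/
def HasWeakFDC (𝒳 : MetricFamily) : Prop :=
  ∀ C : Set MetricFamily, (∀ 𝒴 : MetricFamily, 𝒴.Bounded → 𝒴 ∈ C) →
    (∀ 𝒴 : MetricFamily, WeaklyDecomposes 𝒴 C → 𝒴 ∈ C) → 𝒳 ∈ C

/-- The metric family with the single member `G`. -/
def single (G : Type) (m : MetricSpace G) : MetricFamily where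
  ι := Unit
  sp := fun _ => G
  inst := fun _ => m

/-- The metric `m` on the group `G` is left-invariant and proper (balls are finite). -/
def ProperLeftInvariant (G : Type) [Group G] (m : MetricSpace G) : Prop :=
  (∀ g x y : G, dist (g * x) (g * y) = dist x y) ∧
    ∀ (x : G) (r : ℝ), {y : G | dist x y ≤ r}.Finite

/-- Yu's Property A for the metric space `G`, with maps to the unit sphere of `ℓ¹(G)`. -/
def PropertyA (G : Type) (m : MetricSpace G) : Prop :=
  ∀ R : ℝ, 0 < R → ∀ ε : ℝ, 0 < ε → ∃ S : ℝ, 0 < S ∧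
    ∃ ξ : G → lp (fun _ : G => ℝ) 1,
      (∀ g, ‖ξ g‖ = 1) ∧
      (∀ g h, ξ g h ≠ 0 → dist g h ≤ S) ∧
      ∀ g h, dist g h ≤ R → ‖ξ g - ξ h‖ < ε

end Helper45.FDC
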