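import Pool.Agent.Helper45_FDC.Defs

/-!
# Foelner sets give Property A
-/

namespace Helper45.FDC

section

variable {G : Type} [Group G]

open Classical in
/-- The indicator function of a finite set, in `ℓ¹`. -/
noncomputable def ind (S : Finset G) : lp (fun _ : G => ℝ) 1 :=
  ∑ i ∈ S, lp.single 1 i (1 : ℝ)

theorem ind_norm (S : Finset G) : ‖ind S‖ = S.card := by
  classical
  have h := lp.norm_sum_single (E := fun _ : G => ℝ) (p := 1) (by simp) (fun _ => (1 : ℝ)) S
  simp only [ENNReal.toReal_one, Real.rpow_one, norm_one, Finset.sum_const, nsmul_eq_mul,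
    mul_one] at h
  exact h

theorem ind_apply (S : Finset G) (g : G) (h : ind S g ≠ 0) : g ∈ S := by
  classical
  by_contra hg
  apply h
  simp only [ind, lp.coeFn_sum, Finset.sum_apply, lp.coeFn_single]
  apply Finset.sum_eq_zero
  intro i hi
  rw [Pi.single_apply, if_neg]
  rintro rfl
  exact hg hi

open Classical in
theorem ind_sub (S S' : Finset G) : ind S - ind S' = ind (S \ S') - ind (S' \ S) := by
  have h1 : ind S = ind (S ∩ S') + ind (S \ S') := by
    simp only [ind]
    exact (Finset.sum_inter_add_sum_sdiff S S' _).symm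
  have h2 : ind S' = ind (S' ∩ S) + ind (S' \ S) := by
    simp only [ind]
    exact (Finset.sum_inter_add_sum_sdiff S' S _).symm
  rw [h1, h2, Finset.inter_comm S' S]
  abel

open Classical in
theorem ind_sub_norm (S S' : Finset G) :
    ‖ind S - ind S'‖ ≤ (S \ S').card + (S' \ S).card := by
  rw [ind_sub]
  refine (norm_sub_le _ _).trans ?_
  rw [ind_norm, ind_norm]

open Classical in
/-- Groups with Foelner sets have Property A. -/
theorem propertyA_of_folner
    (hF : ∀ (A : Finset G) (ε : ℝ), 0 < ε → ∃ F : Finset G, F.Nonempty ∧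
      ∀ s ∈ A, (((F.image (fun x => s * x)) \ F).card : ℝ) ≤ ε * F.card)
    (m : MetricSpace G) (hm : ProperLeftInvariant G m) : PropertyA G m := by
  intro R hR ε hε
  have hfin := hm.2 1 R
  obtain ⟨F, hne, hF⟩ := hF hfin.toFinset (ε / 4) (by positivity)
  have hcard : (0 : ℝ) < F.card := by exact_mod_cast hne.card_pos
  have hdist : ∀ x y : G, dist x y = dist 1 (x⁻¹ * y) := by
    intro x y
    have := hm.1 x 1 (x⁻¹ * y)
    rw [mul_one, mul_inv_cancel_left] at this
    exact this
  obtain ⟨B, hB⟩ := (F.finite_toSet.image (fun g => dist (1 : G) g)).bddAbove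
  refine ⟨max B 1, lt_of_lt_of_le one_pos (le_max_right _ _),
    fun g => ((F.card : ℝ)⁻¹) • ind (F.image (fun x => g * x)), ?_, ?_, ?_⟩
  · intro g
    rw [norm_smul, ind_norm, Finset.card_image_of_injective _ (mul_right_injective g), norm_inv,
      Real.norm_of_nonneg hcard.le, inv_mul_cancel₀ hcard.ne']
  · intro g h hgh
    have h1 : ind (F.image (fun x => g * x)) h ≠ 0 := by
      intro h0
      apply hgh
      rw [lp.coeFn_smul, Pi.smul_apply, h0, smul_zero]
    have h2 := ind_apply _ _ h1
    rw [Finset.mem_image] at h2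
    obtain ⟨x, hx, rfl⟩ := h2
    rw [hdist, inv_mul_cancel_left]
    exact (hB ⟨x, hx, rfl⟩).trans (le_max_left _ _)
  · intro g h hgh
    rw [← smul_sub, norm_smul, norm_inv, Real.norm_of_nonneg hcard.le]
    have key : ∀ a b : G, dist a b ≤ R →
        (((F.image (fun x => b * x)) \ (F.image (fun x => a * x))).card : ℝ) ≤
          ε / 4 * F.card := by
      intro a b hab
      have h1 : a⁻¹ * b ∈ hfin.toFinset := by
        rw [Set.Finite.mem_toFinset]
        show dist 1 (a⁻¹ * b) ≤ R
        rw [← hdist]
        exact hab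
      have h2 := hF _ h1
      have h3 : (F.image (fun x => b * x)) \ (F.image (fun x => a * x)) =
          ((F.image (fun x => a⁻¹ * b * x)) \ F).image (fun x => a * x) := by
        ext y
        simp only [Finset.mem_sdiff, Finset.mem_image]
        constructor
        · rintro ⟨⟨x, hx, rfl⟩, hy⟩
          refine ⟨a⁻¹ * b * x, ⟨⟨x, hx, rfl⟩, fun h4 => hy ⟨_, h4, by group⟩⟩, by group⟩
        · rintro ⟨_, ⟨⟨x, hx, rfl⟩, hy⟩, rfl⟩
          refine ⟨⟨x, hx, by group⟩, ?_⟩
          rintro ⟨z, hz, hzz⟩
          apply hy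
          have : z = a⁻¹ * b * x := by
            have h5 := mul_left_cancel hzz
            rw [h5]
          rw [← this]; exact hz
      rw [h3, Finset.card_image_of_injective _ (mul_right_injective a)]
      exact h2
    have h1 := key g h hgh
    have h2 := key h g (by rw [dist_comm]; exact hgh)
    have h3 := ind_sub_norm (F.image (fun x => g * x)) (F.image (fun x => h * x))
    have h4 : ‖ind (F.image (fun x => g * x)) - ind (F.image (fun x => h * x))‖ ≤
        ε / 2 * F.card := by linarith
    have h5 : (F.card : ℝ)⁻¹ *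
        ‖ind (F.image (fun x => g * x)) - ind (F.image (fun x => h * x))‖ ≤
        (F.card : ℝ)⁻¹ * (ε / 2 * F.card) :=
      mul_le_mul_of_nonneg_left h4 (inv_nonneg.mpr hcard.le)
    have h6 : (F.card : ℝ)⁻¹ * (ε / 2 * F.card) = ε / 2 := by
      rw [mul_comm, mul_assoc, mul_inv_cancel₀ hcard.ne', mul_one]
    rw [h6] at h5
    exact lt_of_le_of_lt h5 (by linarith)

end

end Helper45.FDC
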