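import Pool.Agent.Helper45_FDC.Word
import Pool.Agent.Helper45_FDC.PropA
import Pool.Agent.Helper14_Grig.GA
import Pool.Agent.Helper42_Grig.GB2

/-!
# The first Grigorchuk group has Property A but not weak finite decomposition complexity
-/

namespace Helper45.FDC

open Helper45.Grig

/-- Finitely generated infinite groups containing their own square. -/
theorem square_not_weakFDC (G : Type) [Group G] (hfg : Group.FG G) (hinf : Infinite G)
    (φ : G × G →* G) (hφ : Function.Injective φ) (m : MetricSpace G)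
    (hm : ProperLeftInvariant G m) : ¬ HasWeakFDC (single G m) := by
  classical
  obtain ⟨T, hT⟩ := Group.fg_def.mp hfg
  apply fg_not_weakFDC T hT (fun g h => φ (g, h)) ?_ ?_ m hm
  · intro F
    refine ⟨(F ×ˢ F).image (fun p => φ p), ?_⟩
    intro g g' h h' h1 h2
    rw [Finset.mem_image]
    refine ⟨(g⁻¹ * g', h⁻¹ * h'), Finset.mem_product.mpr ⟨h1, h2⟩, ?_⟩
    rw [← map_inv, ← map_mul]
    rfl
  · intro F
    have hfin : {p : G × G | φ p ∈ F}.Finite := F.finite_toSet.preimage hφ.injOn
    refine ⟨hfin.toFinset.image Prod.fst ∪ hfin.toFinset.image Prod.snd, ?_⟩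
    intro g g' h h' h1
    have h2 : (g⁻¹ * g', h⁻¹ * h') ∈ hfin.toFinset := by
      rw [Set.Finite.mem_toFinset]
      show φ (g⁻¹ * g', h⁻¹ * h') ∈ F
      have : (g⁻¹ * g', h⁻¹ * h') = (g, h)⁻¹ * (g', h') := rfl
      rw [this, map_mul, map_inv]
      exact h1
    constructor
    · exact Finset.mem_union_left _ (Finset.mem_image.mpr ⟨_, h2, rfl⟩)
    · exact Finset.mem_union_right _ (Finset.mem_image.mpr ⟨_, h2, rfl⟩)

/-- A finite generating set of the Grigorchuk group. -/
theorem GG_gen : ∃ T : Finset GG, Subgroup.closure (T : Set GG) = ⊤ := by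
  have hfin : gens.Finite := by
    unfold gens
    exact Set.toFinite _
  have hfin' : ((fun x : GG => (x : Equiv.Perm (List Bool))) ⁻¹' gens).Finite :=
    hfin.preimage Subtype.val_injective.injOn
  refine ⟨hfin'.toFinset, ?_⟩
  rw [Set.Finite.coe_toFinset]
  exact Subgroup.closure_closure_coe_preimage

/-- The choice of decidability instance does not matter. -/
theorem card_le_transfer {G : Type} [Mul G] (d1 d2 : DecidableEq G) (F : Finset G) (s : G) (r : ℝ)
    (h : ((@SDiff.sdiff _ (@Finset.instSDiff G d1)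
      (@Finset.image G G d1 (fun x => s * x) F) F).card : ℝ) ≤ r) :
    ((@SDiff.sdiff _ (@Finset.instSDiff G d2)
      (@Finset.image G G d2 (fun x => s * x) F) F).card : ℝ) ≤ r := by
  have e : d1 = d2 := Subsingleton.elim _ _
  subst e
  exact h

theorem grig_main : Countable GG ∧ (∃ m : MetricSpace GG, ProperLeftInvariant GG m) ∧
    ∀ m : MetricSpace GG, ProperLeftInvariant GG m →
      PropertyA GG m ∧ ¬ HasWeakFDC (single GG m) := by
  obtain ⟨T, hT⟩ := GG_gen
  refine ⟨countable_of_fg T hT, ⟨wordMetric T hT, wordMetric_proper T hT⟩, ?_⟩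
  intro m hm
  constructor
  · apply propertyA_of_folner _ m hm
    intro A ε hε
    obtain ⟨F, h1, h2⟩ := Pool.Agent.Helper42Grig.folner_part A ε hε
    refine ⟨F, h1, fun s hs => ?_⟩
    exact card_le_transfer _ _ F s _ (h2 s hs)
  · obtain ⟨hinf, β, h1, h2⟩ := Helper14.Grig.algebra_part
    exact fg_not_weakFDC T hT β h1 h2 m hm

end Helper45.FDC
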