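import Pool.Agent.Helper45_FDC.Base

/-!
# The merge lemma
-/

namespace Helper45.FDC

variable {X : Type} {G : GM X}

/-- A coarse embedding of the square of `X` into `X`. -/
structure Sq (G : GM X) where
  β : X → X → X
  ω : ℕ → ℕ
  h1 : ∀ x y x' y' R, G.d x x' ≤ R → G.d y y' ≤ R → G.d (β x y) (β x' y') ≤ ω R
  h2 : ∀ x y x' y' R, G.d (β x y) (β x' y') ≤ R → G.d x x' ≤ ω R ∧ G.d y y' ≤ ω R

/-- A chosen path. -/
noncomputable def pth (G : GM X) (x y : X) : Ch1 G := (exists_path G x y).choose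

theorem pth_bd (x y : X) : bd1 G (pth G x y) = bas1 G (.inl x) + bas1 G (.inl y) :=
  (exists_path G x y).choose_spec.1

theorem pth_sp (x y : X) : pth G x y ∈ Sp (fun c : Cell1 G =>
    deg1 G c = 1 ∧ ∀ v, vert1 G c v → G.d v y ≤ G.d x y) :=
  (exists_path G x y).choose_spec.2

variable (s : Sq G)

/-- The realization of cells of dimension at most one of the square of `X`. -/
noncomputable def k2 : Cell1 G → Cell1 G → Ch1 G
  | .inl x, .inl y => bas1 G (.inl (s.β x y))
  | .inr e, .inl y => pth G (s.β e.1.1 y) (s.β e.1.2 y)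
  | .inl x, .inr e => pth G (s.β x e.1.1) (s.β x e.1.2)
  | .inr _, .inr _ => 0

theorem k2_sub (c c' : Cell1 G) : k2 s c c' ∈ Sp (fun c'' : Cell1 G =>
    deg1 G c'' = deg1 G c + deg1 G c' ∧
    ∀ v, vert1 G c'' v → ∃ x y, vert1 G c x ∧ vert1 G c' y ∧ G.d v (s.β x y) ≤ s.ω 1) := by
  rcases c with x | e <;> rcases c' with y | e'
  · apply single_mem_Sp
    refine ⟨rfl, ?_⟩
    rintro v rfl
    exact ⟨x, y, rfl, rfl, by rw [G.self]; omega⟩
  · refine Sp_mono ?_ (pth_sp _ _)
    rintro c'' ⟨h1, h2⟩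
    refine ⟨h1, fun v hv => ⟨x, e'.1.2, rfl, Or.inr rfl, (h2 v hv).trans ?_⟩⟩
    exact s.h1 _ _ _ _ 1 (by rw [G.self]; omega) e'.2
  · refine Sp_mono ?_ (pth_sp _ _)
    rintro c'' ⟨h1, h2⟩
    refine ⟨h1, fun v hv => ⟨e.1.2, y, Or.inr rfl, rfl, (h2 v hv).trans ?_⟩⟩
    exact s.h1 _ _ _ _ 1 e.2 (by rw [G.self]; omega)
  · exact Submodule.zero_mem _

/-- Bilinear extension of `k2`. -/
noncomputable def K2 : Ch1 G →ₗ[ZMod 2] Ch1 G →ₗ[ZMod 2] Ch1 G :=
  Finsupp.linearCombination (ZMod 2) (fun c : Cell1 G => ext (k2 s c))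

theorem K2_bas (c c' : Cell1 G) : K2 s (bas1 G c) (bas1 G c') = k2 s c c' := by
  simp only [K2, bas1, Finsupp.linearCombination_single, one_smul]
  exact ext_single _ _

theorem K2_bd (c c' : Cell1 G) (h : deg1 G c + deg1 G c' ≤ 1) : bd1 G (k2 s c c') =
    K2 s (bd1 G (bas1 G c)) (bas1 G c') + K2 s (bas1 G c) (bd1 G (bas1 G c')) := by
  rcases c with x | e <;> rcases c' with y | e'
  · simp only [k2]
    rw [bd1_inl, bd1_inl, bd1_inl, map_zero, map_zero, LinearMap.zero_apply, add_zero]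
  · simp only [k2]
    rw [bd1_inl, bd1_inr, map_zero, LinearMap.zero_apply, zero_add, pth_bd, map_add, K2_bas,
      K2_bas]
    rfl
  · simp only [k2]
    rw [bd1_inl, bd1_inr, map_zero, add_zero, pth_bd, map_add, LinearMap.add_apply, K2_bas,
      K2_bas]
    rfl
  · simp [deg1] at h

/-- The realized boundary of a product of two edges. -/
noncomputable def qq : Cell1 G → Cell1 G → Ch1 G
  | .inr e, .inr e' => K2 s (bd1 G (bas1 G (.inr e))) (bas1 G (.inr e')) +
      K2 s (bas1 G (.inr e)) (bd1 G (bas1 G (.inr e')))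
  | _, _ => 0

theorem qq_bd (c c' : Cell1 G) : bd1 G (qq s c c') = 0 := by
  rcases c with x | e <;> rcases c' with y | e'
  · simp [qq]
  · simp [qq]
  · simp [qq]
  · simp only [qq]
    rw [bd1_inr, bd1_inr]
    simp only [map_add, LinearMap.add_apply]
    rw [K2_bas, K2_bas, K2_bas, K2_bas, K2_bd s _ _ (by simp [deg1]),
      K2_bd s _ _ (by simp [deg1]), K2_bd s _ _ (by simp [deg1]), K2_bd s _ _ (by simp [deg1])]
    simp only [bd1_inl, bd1_inr, map_zero, LinearMap.zero_apply, zero_add, add_zero, map_add,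
      LinearMap.add_apply]
    generalize K2 s (bas1 G (.inl e.1.1)) (bas1 G (.inl e'.1.1)) = a
    generalize K2 s (bas1 G (.inl e.1.1)) (bas1 G (.inl e'.1.2)) = b
    generalize K2 s (bas1 G (.inl e.1.2)) (bas1 G (.inl e'.1.1)) = c
    generalize K2 s (bas1 G (.inl e.1.2)) (bas1 G (.inl e'.1.2)) = d
    calc _ = (a + a) + (b + b) + (c + c) + (d + d) := by abel
      _ = 0 := by simp only [add_self_zero, add_zero]

/-- Constructor for cells. -/
def mkC {n : ℕ} (c : Cell1 G) (τ : Cell G n) : Cell G (n + 1) := (c, τ)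

/-- Constructor for points. -/
def mkP {n : ℕ} (x : X) (z : Pt X n) : Pt X (n + 1) := (x, z)

theorem cross_bas' {n : ℕ} (c : Cell1 G) (τ : Cell G n) :
    cross G (bas1 G c) (bas G τ) = bas G (mkC c τ) := cross_bas G c τ

theorem cell_eq {n : ℕ} (x : Cell G (n + 1)) : ∃ c τ, x = mkC c τ := ⟨x.1, x.2, rfl⟩

/-- Supports of the realized boundary. -/
theorem qq_sub (c c' : Cell1 G) : qq s c c' ∈ Sp (fun c'' : Cell1 G =>
    deg1 G c'' = 1 ∧ deg1 G c = 1 ∧ deg1 G c' = 1 ∧
    ∀ v, vert1 G c'' v → ∃ x y, vert1 G c x ∧ vert1 G c' y ∧ G.d v (s.β x y) ≤ s.ω 1) := by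
  rcases c with x | e <;> rcases c' with y | e'
  · exact Submodule.zero_mem _
  · exact Submodule.zero_mem _
  · exact Submodule.zero_mem _
  · simp only [qq]
    rw [bd1_inr, bd1_inr]
    simp only [map_add, LinearMap.add_apply]
    rw [K2_bas, K2_bas, K2_bas, K2_bas]
    apply Submodule.add_mem
    · apply Submodule.add_mem
      · refine Sp_mono ?_ (k2_sub s _ _)
        rintro c'' ⟨h1, h2⟩
        refine ⟨by simpa [deg1] using h1, rfl, rfl, fun v hv => ?_⟩
        obtain ⟨x, y, hx, hy, hd⟩ := h2 v hv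
        exact ⟨x, y, Or.inl hx, hy, hd⟩
      · refine Sp_mono ?_ (k2_sub s _ _)
        rintro c'' ⟨h1, h2⟩
        refine ⟨by simpa [deg1] using h1, rfl, rfl, fun v hv => ?_⟩
        obtain ⟨x, y, hx, hy, hd⟩ := h2 v hv
        exact ⟨x, y, Or.inr hx, hy, hd⟩
    · apply Submodule.add_mem
      · refine Sp_mono ?_ (k2_sub s _ _)
        rintro c'' ⟨h1, h2⟩
        refine ⟨by simpa [deg1] using h1, rfl, rfl, fun v hv => ?_⟩
        obtain ⟨x, y, hx, hy, hd⟩ := h2 v hv
        exact ⟨x, y, hx, Or.inl hy, hd⟩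
      · refine Sp_mono ?_ (k2_sub s _ _)
        rintro c'' ⟨h1, h2⟩
        refine ⟨by simpa [deg1] using h1, rfl, rfl, fun v hv => ?_⟩
        obtain ⟨x, y, hx, hy, hd⟩ := h2 v hv
        exact ⟨x, y, hx, Or.inr hy, hd⟩

variable {n : ℕ} (γ : Refn G n)

/-- The point map. -/
def b3 : Pt X (n + 2) → Pt X (n + 1) := fun p => (s.β p.1 p.2.1, γ.b p.2.2)

def ω3 : ℕ → ℕ := fun R => max (s.ω R) (γ.ω R)

theorem b3_ce : CE G (ω3 s γ) (b3 s γ) := by
  rintro ⟨x, y, z⟩ ⟨x', y', z'⟩ R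
  simp only [D, b3, ω3]
  constructor
  · intro h
    have h1 := s.h1 x y x' y' R (by omega) (by omega)
    have h2 := (γ.ce z z' R).1 (by omega)
    omega
  · intro h
    have h1 := s.h2 x y x' y' R (by omega)
    have h2 := (γ.ce z z' R).2 (by omega)
    omega

/-- The truncated realization. -/
noncomputable def Θ0 : Ch G (n + 2) →ₗ[ZMod 2] Ch G (n + 1) :=
  ext (fun c : Cell G (n + 2) => cross G (k2 s c.1 c.2.1) (γ.κ (bas G c.2.2)))

theorem Θ0_bas (c c' : Cell1 G) (τ : Cell G n) :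
    Θ0 s γ (bas G (mkC c (mkC c' τ))) = cross G (k2 s c c') (γ.κ (bas G τ)) :=
  ext_single _ _

theorem Θ0_cross (a a' : Ch1 G) (b : Ch G n) :
    Θ0 s γ (cross G a (cross G a' b)) = cross G (K2 s a a') (γ.κ b) := by
  let L : Ch1 G →ₗ[ZMod 2] Ch1 G →ₗ[ZMod 2] Ch G n →ₗ[ZMod 2] Ch G (n + 1) :=
    LinearMap.mk₂ (ZMod 2) (fun a a' => Θ0 s γ ∘ₗ cross G a ∘ₗ cross G a')
      (by intros; refine LinearMap.ext fun _ => ?_; simp)
      (by intros; refine LinearMap.ext fun _ => ?_; simp)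
      (by intros; refine LinearMap.ext fun _ => ?_; simp)
      (by intros; refine LinearMap.ext fun _ => ?_; simp)
  let L' : Ch1 G →ₗ[ZMod 2] Ch1 G →ₗ[ZMod 2] Ch G n →ₗ[ZMod 2] Ch G (n + 1) :=
    LinearMap.mk₂ (ZMod 2) (fun a a' => cross G (K2 s a a') ∘ₗ γ.κ)
      (by intros; refine LinearMap.ext fun _ => ?_; simp)
      (by intros; refine LinearMap.ext fun _ => ?_; simp)
      (by intros; refine LinearMap.ext fun _ => ?_; simp)
      (by intros; refine LinearMap.ext fun _ => ?_; simp)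
  have h : L = L' := by
    apply linear_ext
    intro c
    apply linear_ext
    intro c'
    apply linear_ext
    intro τ
    have h1 := Θ0_bas s γ c c' τ
    rw [← cross_bas', ← cross_bas', ← K2_bas] at h1
    exact h1
  exact LinearMap.congr_fun (LinearMap.congr_fun (LinearMap.congr_fun h a) a') b

/-- Cells whose first two factors have total degree at most one. -/
def KD1 (c : Cell G (n + 2)) : Prop := deg1 G c.1 + deg1 G c.2.1 ≤ 1

theorem bas_cross (c c' : Cell1 G) (τ : Cell G n) :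
    bas G (mkC c (mkC c' τ)) = cross G (bas1 G c) (cross G (bas1 G c') (bas G τ)) := by
  rw [cross_bas', cross_bas']

theorem bd_bas3 (c c' : Cell1 G) (τ : Cell G n) :
    bd G (bas G (mkC c (mkC c' τ))) =
      cross G (bd1 G (bas1 G c)) (cross G (bas1 G c') (bas G τ)) +
      (cross G (bas1 G c) (cross G (bd1 G (bas1 G c')) (bas G τ)) +
      cross G (bas1 G c) (cross G (bas1 G c') (bd G (bas G τ)))) := by
  rw [bas_cross, bd_cross, bd_cross, map_add]

theorem Θ0_comm {y : Ch G (n + 2)} (hy : y ∈ Sp (KD1 (G := G) (n := n))) :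
    bd G (Θ0 s γ y) = Θ0 s γ (bd G y) := by
  have h : (bd G ∘ₗ Θ0 s γ + Θ0 s γ ∘ₗ bd G) y ∈ (⊥ : Submodule (ZMod 2) (Ch G (n + 1))) := by
    apply map_Sp _ _ _ _ hy
    intro x hc
    obtain ⟨c, x', rfl⟩ := cell_eq x
    obtain ⟨c', τ, rfl⟩ := cell_eq x'
    rw [Submodule.mem_bot]
    have h1 := bd_bas3 c c' τ
    have h2 := Θ0_bas s γ c c' τ
    simp only [bas] at h1 h2
    rw [LinearMap.add_apply, LinearMap.comp_apply, LinearMap.comp_apply, h1, h2, map_add,
      map_add, Θ0_cross, Θ0_cross, Θ0_cross, bd_cross, K2_bd s c c' hc, K2_bas, γ.comm, map_add,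
      LinearMap.add_apply]
    generalize cross G (K2 s (bd1 G (bas1 G c)) (bas1 G c')) (γ.κ (Finsupp.single τ 1)) = x1
    generalize cross G (K2 s (bas1 G c) (bd1 G (bas1 G c'))) (γ.κ (Finsupp.single τ 1)) = x2
    generalize cross G (k2 s c c') (γ.κ (bd G (Finsupp.single τ 1))) = x3
    calc _ = (x1 + x1) + (x2 + x2) + (x3 + x3) := by abel
      _ = 0 := by simp only [add_self_zero, add_zero]
  rw [Submodule.mem_bot, LinearMap.add_apply, LinearMap.comp_apply, LinearMap.comp_apply] at h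
  have h3 := add_self_zero (Θ0 s γ (bd G y))
  calc bd G (Θ0 s γ y) = (bd G (Θ0 s γ y) + Θ0 s γ (bd G y)) + Θ0 s γ (bd G y) := by
        rw [add_assoc, h3, add_zero]
    _ = _ := by rw [h, zero_add]

theorem Θ0_ctl : Ctl G (Θ0 s γ) (b3 s γ) (max (s.ω 1) γ.E) := by
  intro x
  obtain ⟨c, x', rfl⟩ := cell_eq x
  obtain ⟨c', τ, rfl⟩ := cell_eq x'
  rw [Θ0_bas]
  refine cross_mem_Sp G ?_ (k2_sub s c c') (γ.ctl τ)
  rintro c'' τ' ⟨-, h1⟩ h2 ⟨v, z⟩ ⟨hv, hz⟩
  obtain ⟨x, y, hx, hy, hd⟩ := h1 v hv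
  obtain ⟨p, hp, hd'⟩ := h2 z hz
  refine ⟨(x, y, p), ⟨hx, hy, hp⟩, ?_⟩
  simp only [D, b3]
  omega

variable (hs : Cell1 G → Cell1 G → Ch G n →ₗ[ZMod 2] Ch G n)

/-- The correction term. -/
noncomputable def QQ : Ch G (n + 2) →ₗ[ZMod 2] Ch G (n + 1) :=
  ext (fun c : Cell G (n + 2) => cross G (qq s c.1 c.2.1) (hs c.1 c.2.1 (bas G c.2.2)))

theorem QQ_bas (c c' : Cell1 G) (τ : Cell G n) :
    QQ s hs (bas G (mkC c (mkC c' τ))) = cross G (qq s c c') (hs c c' (bas G τ)) :=
  ext_single _ _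

theorem QQ_cross (c c' : Cell1 G) (b : Ch G n) :
    QQ s hs (cross G (bas1 G c) (cross G (bas1 G c') b)) = cross G (qq s c c') (hs c c' b) := by
  have h : QQ s hs ∘ₗ (cross G (bas1 G c)) ∘ₗ (cross G (bas1 G c')) =
      (cross G (qq s c c')) ∘ₗ hs c c' := by
    apply linear_ext
    intro τ
    have h1 := QQ_bas s hs c c' τ
    rw [← cross_bas', ← cross_bas'] at h1
    exact h1
  exact LinearMap.congr_fun h b

theorem QQ_KD1 {y : Ch G (n + 2)} (hy : y ∈ Sp (KD1 (G := G) (n := n))) : QQ s hs y = 0 := by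
  have h : QQ s hs y ∈ (⊥ : Submodule (ZMod 2) (Ch G (n + 1))) := by
    apply map_Sp _ _ _ _ hy
    intro x hc
    obtain ⟨c, x', rfl⟩ := cell_eq x
    obtain ⟨c', τ, rfl⟩ := cell_eq x'
    rw [Submodule.mem_bot]
    have h2 := QQ_bas s hs c c' τ
    simp only [bas] at h2
    rw [h2]
    have h3 : qq s c c' = 0 := by
      rcases c with x | e <;> rcases c' with y | e'
      · rfl
      · rfl
      · rfl
      · simp [KD1, mkC, deg1] at hc
    rw [h3, map_zero, LinearMap.zero_apply]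
  simpa using h

theorem QQ_ctl {E : ℕ} (h : ∀ c c', Ctl G (hs c c') γ.b E) :
    Ctl G (QQ s hs) (b3 s γ) (max (s.ω 1) E) := by
  intro x
  obtain ⟨c, x', rfl⟩ := cell_eq x
  obtain ⟨c', τ, rfl⟩ := cell_eq x'
  rw [QQ_bas]
  refine cross_mem_Sp G ?_ (qq_sub s c c') (h c c' τ)
  rintro c'' τ' ⟨-, -, -, h1⟩ h2 ⟨v, z⟩ ⟨hv, hz⟩
  obtain ⟨x, y, hx, hy, hd⟩ := h1 v hv
  obtain ⟨p, hp, hd'⟩ := h2 z hz
  refine ⟨(x, y, p), ⟨hx, hy, hp⟩, ?_⟩
  simp only [D, b3]
  omega

/-- The total realization `Θ0 + QQ` is of degree zero. -/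
theorem Θ_dg (h : ∀ c c', Dg G (hs c c') 1) : Dg G (Θ0 s γ + QQ s hs) 0 := by
  intro x
  obtain ⟨c, x', rfl⟩ := cell_eq x
  obtain ⟨c', τ, rfl⟩ := cell_eq x'
  rw [LinearMap.add_apply, Θ0_bas, QQ_bas]
  apply Submodule.add_mem
  · refine cross_mem_Sp G ?_ (k2_sub s c c') (γ.dg τ)
    rintro c'' τ' ⟨h1, -⟩ h2
    simp only [deg, mkC]
    omega
  · refine cross_mem_Sp G ?_ (qq_sub s c c') (h c c' τ)
    rintro c'' τ' ⟨h1, h3, h4, -⟩ h2
    simp only [deg, mkC]
    omega

/-- The base point of the slice at a pair of cells. -/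
def w0 : Cell1 G → Cell1 G → X
  | .inr e, .inr e' => s.β e.1.1 e'.1.1
  | .inl x, .inl y => s.β x y
  | .inl x, .inr e => s.β x e.1.1
  | .inr e, .inl y => s.β e.1.1 y

theorem w0_near {c c' : Cell1 G} {x y : X} (hx : vert1 G c x) (hy : vert1 G c' y) :
    G.d (s.β x y) (w0 s c c') ≤ s.ω 1 := by
  rcases c with x' | e <;> rcases c' with y' | e'
  · exact s.h1 _ _ _ _ 1 (vert1_near G _ hx rfl) (vert1_near G _ hy rfl)
  · exact s.h1 _ _ _ _ 1 (vert1_near G _ hx rfl) (vert1_near G _ hy (Or.inl rfl))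
  · exact s.h1 _ _ _ _ 1 (vert1_near G _ hx (Or.inl rfl)) (vert1_near G _ hy rfl)
  · exact s.h1 _ _ _ _ 1 (vert1_near G _ hx (Or.inl rfl)) (vert1_near G _ hy (Or.inl rfl))

/-- Failure of the total realization to be a chain map avoids `S`. -/
theorem Θ_comm {S : Set (Pt X (n + 1))} {k E : ℕ}
    (hg : ∀ c c', Good γ E (k - 1)
      (thick G (fun z : Pt X n => mkP (w0 s c c') z) (2 * s.ω 1) S) (hs c c'))
    {y : Ch G (n + 2)} (hy : y ∈ Sp (fun c : Cell G (n + 2) => deg G c < k + 1)) :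
    bd G ((Θ0 s γ + QQ s hs) y) + (Θ0 s γ + QQ s hs) (bd G y) ∈ Av G S := by
  have h : (bd G ∘ₗ (Θ0 s γ + QQ s hs) + (Θ0 s γ + QQ s hs) ∘ₗ bd G) y ∈ Av G S := by
    apply map_Sp _ _ _ _ hy
    intro x hc
    obtain ⟨c, x', rfl⟩ := cell_eq x
    obtain ⟨c', τ, rfl⟩ := cell_eq x'
    by_cases hK : deg1 G c + deg1 G c' ≤ 1
    · -- no correction
      have h1 : (Finsupp.single (mkC c (mkC c' τ)) (1 : ZMod 2) : Ch G (n + 2)) ∈
          Sp (KD1 (G := G) (n := n)) := single_mem_Sp hK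
      have h2 : bd G (Finsupp.single (mkC c (mkC c' τ)) (1 : ZMod 2) : Ch G (n + 2)) ∈
          Sp (KD1 (G := G) (n := n)) := by
        have h3 := bd_bas3 c c' τ
        simp only [bas] at h3
        rw [h3]
        have t1 : ∀ b : Ch G n, b ∈ Sp (fun _ : Cell G n => True) := by
          intro b; rw [mem_Sp]; exact fun _ _ => trivial
        apply Submodule.add_mem
        · refine cross_mem_Sp G (q := fun c2 : Cell G (n + 1) => c2.1 = c') ?_ (bdc1_sub G c) ?_
          · rintro d d' ⟨-, h5⟩ h6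
            simp only [KD1, h6]; omega
          · exact cross_mem_Sp G (p := fun d => d = c') (q := fun _ => True)
              (fun a b ha _ => ha) (single_mem_Sp rfl) (t1 _)
        · apply Submodule.add_mem
          · refine cross_mem_Sp G (p := fun d => d = c)
              (q := fun c2 : Cell G (n + 1) => deg1 G c2.1 + 1 = deg1 G c') ?_
              (single_mem_Sp rfl) ?_
            · rintro d d' rfl h6
              simp only [KD1]; omega
            · exact cross_mem_Sp G (q := fun _ => True)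
                (fun a b ha _ => ha.2) (bdc1_sub G c') (t1 _)
          · refine cross_mem_Sp G (p := fun d => d = c)
              (q := fun c2 : Cell G (n + 1) => c2.1 = c') ?_
              (single_mem_Sp rfl) ?_
            · rintro d d' rfl h6
              simp only [KD1, h6]; exact hK
            · exact cross_mem_Sp G (p := fun d => d = c') (q := fun _ => True)
                (fun a b ha _ => ha) (single_mem_Sp rfl) (t1 _)
      simp only [LinearMap.add_apply, LinearMap.comp_apply]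
      rw [QQ_KD1 s hs h1, QQ_KD1 s hs h2, add_zero, add_zero, Θ0_comm s γ h1, add_self_zero]
      exact Submodule.zero_mem _
    · -- product of two edges
      rcases c with x | e
      · rcases c' with x' | e' <;> simp [deg1] at hK
      rcases c' with x' | e'
      · simp [deg1] at hK
      have hdeg : deg G τ < k - 1 := by
        simp only [deg, deg1, mkC] at hc; omega
      set c : Cell1 G := .inr e with hcdef
      set c' : Cell1 G := .inr e' with hcdef'
      have h1 := bd_bas3 c c' τ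
      have h2 := Θ0_bas s γ c c' τ
      have h3 := QQ_bas s hs c c' τ
      simp only [bas] at h1 h2 h3
      -- QQ on the lower dimensional part vanishes
      have t1 : ∀ b : Ch G n, b ∈ Sp (fun _ : Cell G n => True) := by
        intro b; rw [mem_Sp]; exact fun _ _ => trivial
      have q1 : QQ s hs (cross G (bd1 G (bas1 G c)) (cross G (bas1 G c') (bas G τ))) = 0 := by
        apply QQ_KD1
        refine cross_mem_Sp G (q := fun c2 : Cell G (n + 1) => c2.1 = c') ?_ (bdc1_sub G c) ?_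
        · rintro d d' ⟨-, h5⟩ h6
          simp only [KD1, h6, hcdef, hcdef', deg1] at h5 ⊢; omega
        · exact cross_mem_Sp G (p := fun d => d = c') (q := fun _ => True)
            (fun a b ha _ => ha) (single_mem_Sp rfl) (t1 _)
      have q2 : QQ s hs (cross G (bas1 G c) (cross G (bd1 G (bas1 G c')) (bas G τ))) = 0 := by
        apply QQ_KD1
        refine cross_mem_Sp G (p := fun d => d = c)
          (q := fun c2 : Cell G (n + 1) => deg1 G c2.1 + 1 = deg1 G c') ?_
          (single_mem_Sp rfl) ?_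
        · rintro d d' rfl h6
          simp only [KD1, hcdef, hcdef', deg1] at h6 ⊢; omega
        · exact cross_mem_Sp G (q := fun _ => True)
            (fun a b ha _ => ha.2) (bdc1_sub G c') (t1 _)
      have hk0 : k2 s c c' = 0 := rfl
      have hq : qq s c c' = K2 s (bd1 G (bas1 G c)) (bas1 G c') +
        K2 s (bas1 G c) (bd1 G (bas1 G c')) := rfl
      have key : (bd G ∘ₗ (Θ0 s γ + QQ s hs) + (Θ0 s γ + QQ s hs) ∘ₗ bd G)
          (Finsupp.single (mkC c (mkC c' τ)) (1 : ZMod 2)) =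
          cross G (qq s c c') (γ.κ (bas G τ) + bd G (hs c c' (bas G τ)) +
            hs c c' (bd G (bas G τ))) := by
        simp only [LinearMap.add_apply, LinearMap.comp_apply]
        rw [h1, h2, h3, map_add (Θ0 s γ), map_add (Θ0 s γ), map_add (QQ s hs), map_add (QQ s hs)]
        have q1' := q1
        have q2' := q2
        simp only [bas] at q1' q2'
        rw [q1', q2', Θ0_cross, Θ0_cross, Θ0_cross, QQ_cross, K2_bas, hk0, map_zero,
          LinearMap.zero_apply, LinearMap.zero_apply, zero_add, bd_cross, qq_bd, map_zero,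
          LinearMap.zero_apply, zero_add, zero_add, add_zero, zero_add, map_add, map_add]
        have e1 : cross G (qq s c c') (γ.κ (Finsupp.single τ 1)) =
            cross G (K2 s (bd1 G (bas1 G c)) (bas1 G c')) (γ.κ (Finsupp.single τ 1)) +
            cross G (K2 s (bas1 G c) (bd1 G (bas1 G c'))) (γ.κ (Finsupp.single τ 1)) := by
          rw [hq, map_add, LinearMap.add_apply]
        rw [e1]
        abel
      rw [key]
      refine cross_mem_Sp G ?_ (qq_sub s c c') ((hg c c').av τ hdeg)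
      rintro c'' τ' ⟨-, -, -, h5⟩ h6 ⟨v, z⟩ ⟨hv, hz⟩ hmem
      obtain ⟨x, y, hx, hy, hd⟩ := h5 v hv
      apply h6 z hz
      refine ⟨mkP v z, hmem, ?_⟩
      have h7 := w0_near s hx hy
      have h8 := G.tri v (s.β x y) (w0 s c c')
      simp only [D, mkP, D_self]
      omega
  exact h

end Helper45.FDC
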