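import Pool.Agent.Helper45_FDC.Ops
import Pool.Agent.Helper45_FDC.Defs

/-!
# Negligible families: definition, the union lemma
-/

namespace Helper45.FDC

variable {X : Type} (G : GM X)

/-- `f : S → V` is a coarse embedding with modulus `ω`. -/
def Adm {n : ℕ} (ω : ℕ → ℕ) (S : Set (Pt X n)) {V : Type} [MetricSpace V] (f : S → V) : Prop :=
  ∀ (s t : S) (R : ℕ), (D G s.1 t.1 ≤ R → dist (f s) (f t) ≤ ω R) ∧
    (dist (f s) (f t) ≤ R → D G s.1 t.1 ≤ ω R)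

/-- Members of `𝒱` can be avoided in the `n`-fold product in degrees below `k`. -/
def Range (𝒱 : MetricFamily) (n k : ℕ) : Prop :=
  ∀ ω : ℕ → ℕ, ∃ (ρ : Refn G n) (E : ℕ), ∀ (i : 𝒱.ι) (S : Set (Pt X n)) (f : S → 𝒱.sp i),
    Adm G ω S f → ∃ h, Good ρ E k S h

/-- Negligible families. -/
def Neg (𝒱 : MetricFamily) : Prop := ∀ n, Range G 𝒱 n n

variable {G}

theorem Good.mono {n : ℕ} {ρ : Refn G n} {E E' k k' : ℕ} {S S' : Set (Pt X n)}
    {h : Ch G n →ₗ[ZMod 2] Ch G n} (hg : Good ρ E k S h) (hE : E ≤ E') (hk : k' ≤ k)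
    (hS : S' ⊆ S) : Good ρ E' k' S' h where
  dg := hg.dg
  ctl := Ctl.mono G hg.ctl hE
  av := fun c hc => Av_anti G hS (hg.av c (lt_of_lt_of_le hc hk))

theorem Range.mono {𝒱 : MetricFamily} {n k k' : ℕ} (h : Range G 𝒱 n k) (hk : k' ≤ k) :
    Range G 𝒱 n k' := by
  intro ω
  obtain ⟨ρ, E, hρ⟩ := h ω
  refine ⟨ρ, E, fun i S f hf => ?_⟩
  obtain ⟨h, hh⟩ := hρ i S f hf
  exact ⟨h, hh.mono le_rfl hk subset_rfl⟩

/-- The identity operator data for the empty set. -/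
theorem good_empty {n : ℕ} (E k : ℕ) : Good (Refn.id G n) E k (∅ : Set (Pt X n)) 0 where
  dg := by
    intro c
    rw [LinearMap.zero_apply]
    exact Submodule.zero_mem _
  ctl := by
    intro c
    rw [LinearMap.zero_apply]
    exact Submodule.zero_mem _
  av := by
    intro c hc
    unfold Av
    rw [mem_Sp]
    intro c' _ p _ hp
    exact hp

/-- modulus of the pulled back set -/
def pull (ω ωb : ℕ → ℕ) (E : ℕ) : ℕ → ℕ := fun R =>
  max (ω (ωb R + 2 * E)) (ωb (ω R + 2 * E))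

/-- Pull back an admissible map to the thickened preimage. -/
theorem Adm.pull {m n : ℕ} {ω ωb : ℕ → ℕ} {b : Pt X m → Pt X n} {E : ℕ} {S : Set (Pt X n)}
    {V : Type} [MetricSpace V] {f : S → V} (hf : Adm G ω S f) (hb : CE G ωb b) :
    ∃ f' : thick G b E S → V, Adm G (pull ω ωb E) (thick G b E S) f' := by
  have hch : ∀ p : thick G b E S, ∃ s : S, D G s.1 (b p.1) ≤ E := by
    rintro ⟨p, s, hs, hd⟩
    exact ⟨⟨s, hs⟩, hd⟩
  choose g hg using hch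
  refine ⟨fun p => f (g p), ?_⟩
  intro p q R
  have h1 := D_tri G (g p).1 (b p.1) (g q).1
  have h2 := D_tri G (b p.1) (b q.1) (g q).1
  have h3 := hg p
  have h4 := hg q
  have h4' := hg q
  rw [D_comm G (g q).1] at h4
  constructor
  · intro h
    have h5 := (hb _ _ _).1 h
    have h6 : D G (g p).1 (g q).1 ≤ ωb R + 2 * E := by omega
    have h7 := (hf (g p) (g q) _).1 h6
    refine h7.trans ?_
    exact_mod_cast le_max_left _ _
  · intro h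
    have h5 := (hf (g p) (g q) R).2 h
    have h6 := D_tri G (b p.1) (g p).1 (b q.1)
    have h7 := D_tri G (g p).1 (g q).1 (b q.1)
    rw [D_comm G (b p.1) (g p).1] at h6
    have h8 : D G (b p.1) (b q.1) ≤ ω R + 2 * E := by omega
    have h9 := (hb _ _ _).2 h8
    exact h9.trans (le_max_right _ _)

/-- Finitely many colours, each consisting of a separated family of avoidable sets. -/
theorem colours {𝒴 : MetricFamily} {n : ℕ} (hY : Range G 𝒴 n n) (ω : ℕ → ℕ) (c : ℕ) :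
    ∃ (ρ : Refn G n) (E : ℕ), ∀ (J : ℕ → Type) (U : ∀ k, J k → Set (Pt X n)),
      (∀ k < c, ∀ i j, i ≠ j → ∀ u ∈ U k i, ∀ v ∈ U k j, 1 < D G u v) →
      (∀ k < c, ∀ j, ∃ (i : 𝒴.ι) (f : U k j → 𝒴.sp i), Adm G ω (U k j) f) →
      ∃ h, Good ρ E (n + 1 - c) (⋃ k < c, ⋃ j, U k j) h := by
  induction c with
  | zero =>
      refine ⟨Refn.id G n, 0, fun J U _ _ => ⟨0, ?_⟩⟩
      refine (good_empty 0 (n + 1)).mono le_rfl (by omega) ?_
      intro p hp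
      simp at hp
  | succ c ih =>
      obtain ⟨ρ0, E0, h0⟩ := ih
      obtain ⟨ρ1, E1, h1⟩ := hY (pull ω ρ0.ω (max ρ0.E E0))
      refine ⟨ρ0.comp ρ1, max (E0 + ρ0.ω ρ1.E) (max ρ0.E E0 + ρ0.ω E1), ?_⟩
      intro J U sep adm
      obtain ⟨H0, g0⟩ := h0 J U (fun k hk => sep k (by omega)) (fun k hk => adm k (by omega))
      have hj : ∀ j : J c, ∃ h, Good ρ1 E1 n (thick G ρ0.b (max ρ0.E E0) (U c j)) h := by
        intro j
        obtain ⟨i, f, hf⟩ := adm c (by omega) j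
        obtain ⟨f', hf'⟩ := hf.pull (E := max ρ0.E E0) ρ0.ce
        exact h1 i _ f' hf'
      choose H1 g1 using hj
      obtain ⟨h, hh⟩ := union_step (U := U c) g0 (sep c (by omega)) g1
      refine ⟨h, hh.mono le_rfl (by omega) ?_⟩
      intro p hp
      simp only [Set.mem_iUnion] at hp ⊢
      obtain ⟨k, hk, j, hj⟩ := hp
      by_cases hkc : k < c
      · left
        simp only [Set.mem_iUnion]
        exact ⟨k, hkc, j, hj⟩
      · right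
        have : k = c := by omega
        subst this
        exact Set.mem_iUnion.mpr ⟨j, hj⟩

/-- **Union lemma**. -/
theorem union_range {𝒱 : MetricFamily} (d : ℕ)
    (h : ∀ r : ℝ, 0 < r → ∃ 𝒴, Neg G 𝒴 ∧ Decomposable d r 𝒱 𝒴) (n : ℕ) :
    Range G 𝒱 n (n - d) := by
  intro ω
  obtain ⟨𝒴, hneg, hdec⟩ := h (ω 1 + 1) (by positivity)
  obtain ⟨ρ, E, hρ⟩ := colours (hneg n) ω (d + 1)
  refine ⟨ρ, E, ?_⟩
  intro i S f hf
  obtain ⟨A, hA, hU⟩ := hdec i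
  choose J B hB hsep hiso using hU
  -- colours indexed by naturals
  let J' : ℕ → Type := fun k => {x : Σ k' : Fin (d + 1), J k' // x.1.1 = k}
  let U : ∀ k, J' k → Set (Pt X n) := fun k x =>
    {p | ∃ hp : p ∈ S, f ⟨p, hp⟩ ∈ B x.1.1 x.1.2}
  have hs1 : ∀ k < d + 1, ∀ i j, i ≠ j → ∀ u ∈ U k i, ∀ v ∈ U k j, 1 < D G u v := by
    rintro k hk ⟨⟨ka, a⟩, ha⟩ ⟨⟨kb, b⟩, hb⟩ hab u ⟨hu1, hu2⟩ v ⟨hv1, hv2⟩
    have hkk : ka = kb := Fin.ext (ha.trans hb.symm)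
    subst hkk
    have hne : a ≠ b := by
      rintro rfl
      exact hab rfl
    obtain ⟨s, hs, hs'⟩ := hsep ka a b hne
    have h1 := hs' _ hu2 _ hv2
    by_contra hcon
    push Not at hcon
    have h2 := (hf ⟨u, hu1⟩ ⟨v, hv1⟩ 1).1 hcon
    linarith
  have hs2 : ∀ k < d + 1, ∀ j, ∃ (i : 𝒴.ι) (f : U k j → 𝒴.sp i), Adm G ω (U k j) f := by
    rintro k hk ⟨⟨kj, j⟩, hj⟩
    obtain ⟨i', ⟨e⟩⟩ := hiso kj j
    have hmem : ∀ p : U k ⟨⟨kj, j⟩, hj⟩, ∃ hp : p.1 ∈ S, f ⟨p.1, hp⟩ ∈ B kj j := by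
      rintro ⟨p, hp⟩
      exact hp
    refine ⟨i', fun p => e ⟨f ⟨p.1, (hmem p).1⟩, (hmem p).2⟩, ?_⟩
    intro p q R
    have h3 : dist (e ⟨f ⟨p.1, (hmem p).1⟩, (hmem p).2⟩) (e ⟨f ⟨q.1, (hmem q).1⟩, (hmem q).2⟩) =
        dist (f ⟨p.1, (hmem p).1⟩) (f ⟨q.1, (hmem q).1⟩) := by
      rw [e.dist_eq]
      rfl
    rw [h3]
    exact hf ⟨p.1, (hmem p).1⟩ ⟨q.1, (hmem q).1⟩ R
  obtain ⟨H, hH⟩ := hρ J' U hs1 hs2
  refine ⟨H, hH.mono le_rfl (by omega) ?_⟩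
  intro p hp
  have h1 : f ⟨p, hp⟩ ∈ ⋃ k, A k := by rw [hA]; trivial
  obtain ⟨k, hk⟩ := Set.mem_iUnion.mp h1
  rw [← hB k] at hk
  obtain ⟨j, hj⟩ := Set.mem_iUnion.mp hk
  simp only [Set.mem_iUnion]
  exact ⟨k.1, k.2, ⟨⟨k, j⟩, rfl⟩, hp, hj⟩

end Helper45.FDC
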