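import Pool.Agent.Helper45_FDC.Chains

/-!
# Refinements and avoiding operators; the union step
-/

namespace Helper45.FDC

variable {X : Type} (G : GM X)

/-- The vertex cell at a point. -/
def vc : {n : ℕ} → Pt X n → Cell G n
  | 0, _ => ()
  | _ + 1, p => (.inl p.1, vc p.2)

/-- Two cells have the same degree in each factor. -/
def sd : {n : ℕ} → Cell G n → Cell G n → Prop
  | 0, _, _ => True
  | _ + 1, c, c' => deg1 G c.1 = deg1 G c'.1 ∧ sd c.2 c'.2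

theorem sd_refl : ∀ {n : ℕ} (c : Cell G n), sd G c c
  | 0, _ => trivial
  | _ + 1, c => ⟨rfl, sd_refl c.2⟩

theorem sd_trans : ∀ {n : ℕ} {a b c : Cell G n}, sd G a b → sd G b c → sd G a c
  | 0, _, _, _, _, _ => trivial
  | _ + 1, _, _, _, h1, h2 => ⟨h1.1.trans h2.1, sd_trans h1.2 h2.2⟩

theorem sd_deg : ∀ {n : ℕ} {a b : Cell G n}, sd G a b → deg G a = deg G b
  | 0, _, _, _ => rfl
  | _ + 1, a, b, h => by
      have := sd_deg h.2
      simp only [deg, h.1, this]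

/-- Coarse embeddings between products, with modulus `ω`. -/
def CE {m n : ℕ} (ω : ℕ → ℕ) (b : Pt X m → Pt X n) : Prop :=
  ∀ p q R, (D G p q ≤ R → D G (b p) (b q) ≤ ω R) ∧ (D G (b p) (b q) ≤ R → D G p q ≤ ω R)

/-- `f` moves supports at most `E` away from the point map `b`. -/
def Ctl {m n : ℕ} (f : Ch G m →ₗ[ZMod 2] Ch G n) (b : Pt X m → Pt X n) (E : ℕ) : Prop :=
  ∀ c, f (bas G c) ∈ Sp (fun c' : Cell G n =>
    ∀ q, vert G c' q → ∃ p, vert G c p ∧ D G q (b p) ≤ E)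

/-- `f` raises degrees by `k`. -/
def Dg {m n : ℕ} (f : Ch G m →ₗ[ZMod 2] Ch G n) (k : ℕ) : Prop :=
  ∀ c, f (bas G c) ∈ Sp (fun c' : Cell G n => deg G c' = deg G c + k)

theorem Ctl.mono {m n : ℕ} {f : Ch G m →ₗ[ZMod 2] Ch G n} {b : Pt X m → Pt X n} {E E' : ℕ}
    (h : Ctl G f b E) (hE : E ≤ E') : Ctl G f b E' := by
  intro c
  refine Sp_mono ?_ (h c)
  intro c' hc' q hq
  obtain ⟨p, hp, hd⟩ := hc' q hq
  exact ⟨p, hp, hd.trans hE⟩

theorem Ctl.add {m n : ℕ} {f g : Ch G m →ₗ[ZMod 2] Ch G n} {b : Pt X m → Pt X n} {E : ℕ}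
    (hf : Ctl G f b E) (hg : Ctl G g b E) : Ctl G (f + g) b E := by
  intro c
  rw [LinearMap.add_apply]
  exact Submodule.add_mem _ (hf c) (hg c)

theorem Ctl.comp {l m n : ℕ} {f : Ch G m →ₗ[ZMod 2] Ch G n} {g : Ch G l →ₗ[ZMod 2] Ch G m}
    {b : Pt X m → Pt X n} {b' : Pt X l → Pt X m} {E E' : ℕ} {ω : ℕ → ℕ}
    (hf : Ctl G f b E) (hg : Ctl G g b' E') (hb : CE G ω b) :
    Ctl G (f ∘ₗ g) (fun p => b (b' p)) (E + ω E') := by
  intro c
  rw [LinearMap.comp_apply]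
  apply map_Sp f _ _ _ (hg c)
  intro c' hc'
  refine Sp_mono ?_ (hf c')
  intro c'' hc'' q hq
  obtain ⟨p, hp, hd⟩ := hc'' q hq
  obtain ⟨r, hr, hd'⟩ := hc' p hp
  refine ⟨r, hr, ?_⟩
  have h1 := (hb p (b' r) E').1 hd'
  have h2 := D_tri G q (b p) (b (b' r))
  show D G q (b (b' r)) ≤ E + ω E'
  omega

theorem Ctl.bd_left {m n : ℕ} {f : Ch G m →ₗ[ZMod 2] Ch G n} {b : Pt X m → Pt X n} {E : ℕ}
    (hf : Ctl G f b E) : Ctl G (bd G ∘ₗ f) b E := by
  intro c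
  rw [LinearMap.comp_apply]
  apply map_Sp (bd G) _ _ _ (hf c)
  intro c' hc'
  refine Sp_mono ?_ (bd_sub G c')
  intro c'' hc'' q hq
  exact hc' q (hc''.1 q hq)

theorem Ctl.bd_right {m n : ℕ} {f : Ch G m →ₗ[ZMod 2] Ch G n} {b : Pt X m → Pt X n} {E : ℕ}
    (hf : Ctl G f b E) : Ctl G (f ∘ₗ bd G) b E := by
  intro c
  rw [LinearMap.comp_apply]
  apply map_Sp f _ _ _ (bd_sub G c)
  intro c' hc'
  refine Sp_mono ?_ (hf c')
  intro c'' hc'' q hq
  obtain ⟨p, hp, hd⟩ := hc'' q hq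
  exact ⟨p, hc'.1 p hp, hd⟩

theorem Dg.comp {l m n : ℕ} {f : Ch G m →ₗ[ZMod 2] Ch G n} {g : Ch G l →ₗ[ZMod 2] Ch G m}
    {j k : ℕ} (hf : Dg G f j) (hg : Dg G g k) : Dg G (f ∘ₗ g) (j + k) := by
  intro c
  rw [LinearMap.comp_apply]
  apply map_Sp f _ _ _ (hg c)
  intro c' hc'
  refine Sp_mono ?_ (hf c')
  intro c'' hc''
  rw [hc'', hc']; ring

theorem Dg.add {m n : ℕ} {f g : Ch G m →ₗ[ZMod 2] Ch G n} {k : ℕ}
    (hf : Dg G f k) (hg : Dg G g k) : Dg G (f + g) k := by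
  intro c
  rw [LinearMap.add_apply]
  exact Submodule.add_mem _ (hf c) (hg c)

/-- A refinement of the `n`-fold product. -/
structure Refn (n : ℕ) where
  κ : Ch G n →ₗ[ZMod 2] Ch G n
  b : Pt X n → Pt X n
  ω : ℕ → ℕ
  E : ℕ
  ce : CE G ω b
  comm : ∀ x, bd G (κ x) = κ (bd G x)
  ctl : Ctl G κ b E
  sdk : ∀ c, κ (bas G c) ∈ Sp (fun c' : Cell G n => sd G c' c)
  vtx : ∀ p, κ (bas G (vc G p)) = bas G (vc G (b p))

variable {G}

theorem Refn.dg {n : ℕ} (ρ : Refn G n) : Dg G ρ.κ 0 := by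
  intro c
  refine Sp_mono ?_ (ρ.sdk c)
  intro c' hc'
  rw [sd_deg G hc', add_zero]

/-- The identity refinement. -/
noncomputable def Refn.id (G : GM X) (n : ℕ) : Refn G n where
  κ := LinearMap.id
  b := fun p => p
  ω := fun R => R
  E := 0
  ce := fun p q R => ⟨fun h => h, fun h => h⟩
  comm := fun x => rfl
  ctl := by
    intro c
    apply single_mem_Sp
    intro q hq
    exact ⟨q, hq, by rw [D_self]⟩
  sdk := fun c => single_mem_Sp (sd_refl G c)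
  vtx := fun p => rfl

/-- Composition of refinements. -/
noncomputable def Refn.comp {n : ℕ} (ρ ρ' : Refn G n) : Refn G n where
  κ := ρ.κ ∘ₗ ρ'.κ
  b := fun p => ρ.b (ρ'.b p)
  ω := fun R => max (ρ.ω (ρ'.ω R)) (ρ'.ω (ρ.ω R))
  E := ρ.E + ρ.ω ρ'.E
  ce := by
    intro p q R
    constructor
    · intro h
      exact le_trans ((ρ.ce _ _ _).1 ((ρ'.ce _ _ _).1 h)) (le_max_left _ _)
    · intro h
      exact le_trans ((ρ'.ce _ _ _).2 ((ρ.ce _ _ _).2 h)) (le_max_right _ _)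
  comm := by
    intro x
    simp only [LinearMap.comp_apply]
    rw [ρ.comm, ρ'.comm]
  ctl := Ctl.comp G ρ.ctl ρ'.ctl ρ.ce
  sdk := by
    intro c
    rw [LinearMap.comp_apply]
    apply map_Sp ρ.κ _ _ _ (ρ'.sdk c)
    intro c' hc'
    refine Sp_mono ?_ (ρ.sdk c')
    intro c'' hc''
    exact sd_trans G hc'' hc'
  vtx := by
    intro p
    rw [LinearMap.comp_apply, ρ'.vtx, ρ.vtx]

/-- `h` is an operator of degree one avoiding `S` in degrees below `k`, relative to the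
refinement `ρ`. -/
structure Good {n : ℕ} (ρ : Refn G n) (E k : ℕ) (S : Set (Pt X n))
    (h : Ch G n →ₗ[ZMod 2] Ch G n) : Prop where
  dg : Dg G h 1
  ctl : Ctl G h ρ.b E
  av : ∀ c, deg G c < k → ρ.κ (bas G c) + bd G (h (bas G c)) + h (bd G (bas G c)) ∈ Av G S

/-- The thickened preimage of a set. -/
def thick (G : GM X) {m n : ℕ} (b : Pt X m → Pt X n) (E : ℕ) (S : Set (Pt X n)) : Set (Pt X m) :=
  {p | ∃ s ∈ S, D G s (b p) ≤ E}

/-- A controlled operator sends chains avoiding the thickened preimage of `S` to chains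
avoiding `S`. -/
theorem Ctl.av {m n : ℕ} {f : Ch G m →ₗ[ZMod 2] Ch G n} {b : Pt X m → Pt X n} {E : ℕ}
    (hf : Ctl G f b E) {S : Set (Pt X n)} {x : Ch G m} (hx : x ∈ Av G (thick G b E S)) :
    f x ∈ Av G S := by
  apply map_Sp f _ _ _ hx
  intro c hc
  refine Sp_mono ?_ (hf c)
  intro c' hc' q hq hqS
  obtain ⟨p, hp, hd⟩ := hc' q hq
  exact hc p hp ⟨q, hqS, hd⟩

/-- the corrected chain map -/
noncomputable def phi {n : ℕ} (ρ : Refn G n) (h : Ch G n →ₗ[ZMod 2] Ch G n) :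
    Ch G n →ₗ[ZMod 2] Ch G n :=
  ρ.κ + bd G ∘ₗ h + h ∘ₗ bd G

theorem phi_apply {n : ℕ} (ρ : Refn G n) (h : Ch G n →ₗ[ZMod 2] Ch G n) (x : Ch G n) :
    phi ρ h x = ρ.κ x + bd G (h x) + h (bd G x) := rfl

theorem phi_bd {n : ℕ} (ρ : Refn G n) (h : Ch G n →ₗ[ZMod 2] Ch G n) (x : Ch G n) :
    bd G (phi ρ h x) = phi ρ h (bd G x) := by
  simp only [phi_apply, map_add, bd_bd, ρ.comm, add_zero, map_zero]

theorem phi_ctl {n : ℕ} {ρ : Refn G n} {h : Ch G n →ₗ[ZMod 2] Ch G n} {E : ℕ}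
    (hh : Ctl G h ρ.b E) : Ctl G (phi ρ h) ρ.b (max ρ.E E) := by
  have h1 := (Ctl.mono G ρ.ctl (le_max_left ρ.E E))
  have h2 := (Ctl.mono G hh (le_max_right ρ.E E))
  exact Ctl.add G (Ctl.add G h1 (Ctl.bd_left G h2)) (Ctl.bd_right G h2)

/-- In low degrees `phi` avoids `S`. -/
theorem Good.phi_av {n : ℕ} {ρ : Refn G n} {E k : ℕ} {S : Set (Pt X n)}
    {h : Ch G n →ₗ[ZMod 2] Ch G n} (hg : Good ρ E k S h) {x : Ch G n}
    (hx : x ∈ Sp (fun c : Cell G n => deg G c < k)) : phi ρ h x ∈ Av G S := by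
  apply map_Sp (phi ρ h) _ _ _ hx
  intro c hc
  rw [phi_apply]
  exact hg.av c hc

section UnionStep

variable {n : ℕ} (ρ0 ρ1 : Refn G n) (h0 : Ch G n →ₗ[ZMod 2] Ch G n) {J : Type}
  (U : J → Set (Pt X n)) (h1 : J → Ch G n →ₗ[ZMod 2] Ch G n)

/-- the cell `c` meets the set `S` -/
def Meets (G : GM X) {n : ℕ} (c : Cell G n) (S : Set (Pt X n)) : Prop := ∃ q, vert G c q ∧ q ∈ S

open Classical in
/-- The coefficient function of the union operator. -/
noncomputable def ucoef (c : Cell G n) (c' : Cell G n) : ZMod 2 :=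
  if h : ∃ j, Meets G c' (U j) then (phi ρ0 h0 (h1 h.choose (bas G c))) c' else 0

theorem ucoef_eq (sep : ∀ i j, i ≠ j → ∀ u ∈ U i, ∀ v ∈ U j, 1 < D G u v) (c c' : Cell G n)
    (j : J) (hj : Meets G c' (U j)) :
    ucoef ρ0 h0 U h1 c c' = (phi ρ0 h0 (h1 j (bas G c))) c' := by
  have hex : ∃ j, Meets G c' (U j) := ⟨j, hj⟩
  have h2 : hex.choose = j := by
    by_contra hne
    obtain ⟨q, hq, hqU⟩ := hex.choose_spec
    obtain ⟨q', hq', hqU'⟩ := hj
    have := sep _ _ hne q hqU q' hqU'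
    have h3 := vert_near G c' hq hq'
    omega
  unfold ucoef
  rw [dif_pos hex, h2]

theorem ucoef_ne (c c' : Cell G n) (h : ucoef ρ0 h0 U h1 c c' ≠ 0) :
    ∃ j, Meets G c' (U j) ∧ (phi ρ0 h0 (h1 j (bas G c))) c' ≠ 0 := by
  unfold ucoef at h
  split_ifs at h with hex
  · exact ⟨hex.choose, hex.choose_spec, h⟩
  · exact absurd rfl h

variable {ρ0 ρ1 h0 U h1}

theorem ucoef_fin {E0 E1 : ℕ} (c0 : Ctl G h0 ρ0.b E0) (c1 : ∀ j, Ctl G (h1 j) ρ1.b E1)
    (c : Cell G n) : (Function.support (ucoef ρ0 h0 U h1 c)).Finite := by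
  obtain ⟨p, hp⟩ := vert_ex G c
  apply Set.Finite.subset (near_fin G (ρ0.b (ρ1.b p))
    ((max ρ0.E E0) + ρ0.ω E1 + ρ0.ω (ρ1.ω 1)))
  intro c' hc'
  obtain ⟨j, -, hne⟩ := ucoef_ne ρ0 h0 U h1 c c' hc'
  have h2 := Ctl.comp G (phi_ctl (ρ := ρ0) c0) (c1 j) ρ0.ce c
  rw [mem_Sp] at h2
  have h3 := h2 c' hne
  obtain ⟨q, hq⟩ := vert_ex G c'
  obtain ⟨p', hp', hd⟩ := h3 q hq
  refine ⟨q, hq, ?_⟩
  have h4 := vert_near G c hp hp'
  have h5 := (ρ0.ce _ _ _).1 ((ρ1.ce _ _ _).1 h4)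
  have h6 := D_tri G (ρ0.b (ρ1.b p)) (ρ0.b (ρ1.b p')) q
  rw [D_comm G (ρ0.b (ρ1.b p')) q] at h6
  have hd' : D G q (ρ0.b (ρ1.b p')) ≤ max ρ0.E E0 + ρ0.ω E1 := hd
  omega

/-- The union operator. -/
noncomputable def uop {E0 E1 : ℕ} (c0 : Ctl G h0 ρ0.b E0) (c1 : ∀ j, Ctl G (h1 j) ρ1.b E1) :
    Ch G n →ₗ[ZMod 2] Ch G n :=
  ext (fun c => Finsupp.ofSupportFinite (ucoef ρ0 h0 U h1 c) (ucoef_fin c0 c1 c))

theorem uop_bas {E0 E1 : ℕ} (c0 : Ctl G h0 ρ0.b E0) (c1 : ∀ j, Ctl G (h1 j) ρ1.b E1)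
    (c c' : Cell G n) : (uop (U := U) c0 c1 (bas G c)) c' = ucoef ρ0 h0 U h1 c c' := by
  unfold uop
  simp only [bas]
  rw [ext_single]
  rfl

theorem uop_sub {E0 E1 : ℕ} (c0 : Ctl G h0 ρ0.b E0) (c1 : ∀ j, Ctl G (h1 j) ρ1.b E1)
    (c : Cell G n) (P : Cell G n → Prop) (hP : ∀ j, phi ρ0 h0 (h1 j (bas G c)) ∈ Sp P) :
    uop (U := U) c0 c1 (bas G c) ∈ Sp P := by
  rw [mem_Sp]
  intro c' hc'
  rw [uop_bas] at hc'
  obtain ⟨j, -, hne⟩ := ucoef_ne ρ0 h0 U h1 c c' hc'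
  have := hP j
  rw [mem_Sp] at this
  exact this c' hne

theorem uop_diff (sep : ∀ i j, i ≠ j → ∀ u ∈ U i, ∀ v ∈ U j, 1 < D G u v)
    {E0 E1 : ℕ} (c0 : Ctl G h0 ρ0.b E0) (c1 : ∀ j, Ctl G (h1 j) ρ1.b E1) (j : J) (x : Ch G n) :
    uop (U := U) c0 c1 x + phi ρ0 h0 (h1 j x) ∈ Av G (U j) := by
  have h2 : x ∈ Sp (fun _ : Cell G n => True) := by
    rw [mem_Sp]; exact fun _ _ => trivial
  have h3 := map_Sp (uop (U := U) c0 c1 + phi ρ0 h0 ∘ₗ h1 j) (fun _ => True) (Av G (U j)) ?_ h2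
  · exact h3
  intro c _
  unfold Av
  rw [mem_Sp]
  intro c' hc' q hq hqU
  apply hc'
  have h4 := uop_bas (U := U) c0 c1 c c'
  simp only [bas] at h4
  rw [LinearMap.add_apply, Finsupp.add_apply, h4,
    ucoef_eq ρ0 h0 U h1 sep c c' j ⟨q, hq, hqU⟩, LinearMap.comp_apply]
  exact CharTwo.add_self_eq_zero _

/-- **The union step**: adding a separated family of avoidable sets. -/
theorem union_step {E0 E1 k0 k1 : ℕ} {S : Set (Pt X n)} (g0 : Good ρ0 E0 k0 S h0)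
    (sep : ∀ i j, i ≠ j → ∀ u ∈ U i, ∀ v ∈ U j, 1 < D G u v)
    (g1 : ∀ j, Good ρ1 E1 k1 (thick G ρ0.b (max ρ0.E E0) (U j)) (h1 j)) :
    ∃ h, Good (ρ0.comp ρ1) (max (E0 + ρ0.ω ρ1.E) (max ρ0.E E0 + ρ0.ω E1)) (min (k0 - 1) k1)
      (S ∪ ⋃ j, U j) h := by
  have c0 := g0.ctl
  have c1 : ∀ j, Ctl G (h1 j) ρ1.b E1 := fun j => (g1 j).ctl
  set H1 := uop (U := U) c0 c1 with hH1
  have hb : CE G ρ0.ω ρ0.b := ρ0.ce
  -- degree of phi
  have dphi : Dg G (phi ρ0 h0) 0 := by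
    intro c
    rw [phi_apply]
    apply Submodule.add_mem
    · apply Submodule.add_mem
      · exact ρ0.dg c
      · apply map_Sp (bd G) _ _ _ (g0.dg c)
        intro c' hc'
        refine Sp_mono ?_ (bd_sub G c')
        intro c'' hc''
        have := hc''.2
        omega
    · apply map_Sp h0 _ _ _ (bd_sub G c)
      intro c' hc'
      refine Sp_mono ?_ (g0.dg c')
      intro c'' hc''
      have := hc'.2
      omega
  refine ⟨h0 ∘ₗ ρ1.κ + H1, ?_, ?_, ?_⟩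
  · -- degree
    apply Dg.add
    · exact Dg.comp G g0.dg ρ1.dg
    · intro c
      apply uop_sub c0 c1
      intro j
      have := Dg.comp G dphi (g1 j).dg c
      rw [zero_add] at this
      exact this
  · -- control
    apply Ctl.add
    · have h7 := Ctl.comp G c0 ρ1.ctl hb
      exact Ctl.mono G h7 (le_max_left _ _)
    · intro c
      apply uop_sub c0 c1
      intro j
      have h7 := Ctl.comp G (phi_ctl c0) (c1 j) hb
      exact Ctl.mono G h7 (le_max_right _ _) c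
  · -- avoidance
    intro c hc
    have key : (ρ0.comp ρ1).κ (bas G c) + bd G ((h0 ∘ₗ ρ1.κ + H1) (bas G c)) +
        (h0 ∘ₗ ρ1.κ + H1) (bd G (bas G c)) =
        phi ρ0 h0 (ρ1.κ (bas G c)) + bd G (H1 (bas G c)) + H1 (bd G (bas G c)) := by
      simp only [Refn.comp, LinearMap.comp_apply, LinearMap.add_apply, phi_apply, map_add, ρ1.comm]
      abel
    rw [key]
    have hdeg : deg G c < k0 - 1 := lt_of_lt_of_le hc (min_le_left _ _)
    have hdeg1 : deg G c < k1 := lt_of_lt_of_le hc (min_le_right _ _)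
    -- avoid S
    have hS : phi ρ0 h0 (ρ1.κ (bas G c)) + bd G (H1 (bas G c)) + H1 (bd G (bas G c)) ∈ Av G S := by
      have hH : ∀ c', deg G c' + 1 < k0 → H1 (bas G c') ∈ Av G S := by
        intro c' hc'
        apply uop_sub c0 c1
        intro j
        apply g0.phi_av
        refine Sp_mono ?_ ((g1 j).dg c')
        intro c'' hc''
        omega
      apply Submodule.add_mem
      · apply Submodule.add_mem
        · apply g0.phi_av
          refine Sp_mono ?_ (ρ1.dg c)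
          intro c' hc'
          omega
        · apply bd_Av
          apply hH
          omega
      · apply map_Sp H1 _ _ _ (bd_sub G c)
        intro c' hc'
        apply hH
        have := hc'.2
        omega
    -- avoid U j
    have hU : ∀ j, phi ρ0 h0 (ρ1.κ (bas G c)) + bd G (H1 (bas G c)) + H1 (bd G (bas G c)) ∈
        Av G (U j) := by
      intro j
      have h2 : phi ρ0 h0 (phi ρ1 (h1 j) (bas G c)) ∈ Av G (U j) := by
        apply Ctl.av (phi_ctl c0)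
        rw [phi_apply]
        exact (g1 j).av c hdeg1
      have h3 := bd_Av G (uop_diff sep c0 c1 j (bas G c))
      have h4 := uop_diff sep c0 c1 j (bd G (bas G c))
      have h5 := Submodule.add_mem _ (Submodule.add_mem _ h2 h3) h4
      rw [← hH1] at h5
      have h6 : phi ρ0 h0 (phi ρ1 (h1 j) (bas G c)) +
          bd G (H1 (bas G c) + phi ρ0 h0 (h1 j (bas G c))) +
          (H1 (bd G (bas G c)) + phi ρ0 h0 (h1 j (bd G (bas G c)))) =
          phi ρ0 h0 (ρ1.κ (bas G c)) + bd G (H1 (bas G c)) + H1 (bd G (bas G c)) := by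
        have e1 : phi ρ0 h0 (phi ρ1 (h1 j) (bas G c)) = phi ρ0 h0 (ρ1.κ (bas G c)) +
            phi ρ0 h0 (bd G (h1 j (bas G c))) + phi ρ0 h0 (h1 j (bd G (bas G c))) := by
          rw [phi_apply ρ1, map_add, map_add]
        rw [e1, map_add (bd G), phi_bd]
        have e2 := add_self_zero (phi ρ0 h0 (bd G (h1 j (bas G c))))
        have e3 := add_self_zero (phi ρ0 h0 (h1 j (bd G (bas G c))))
        calc _ = phi ρ0 h0 (ρ1.κ (bas G c)) + bd G (H1 (bas G c)) + H1 (bd G (bas G c)) +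
            (phi ρ0 h0 (bd G (h1 j (bas G c))) + phi ρ0 h0 (bd G (h1 j (bas G c)))) +
            (phi ρ0 h0 (h1 j (bd G (bas G c))) + phi ρ0 h0 (h1 j (bd G (bas G c)))) := by abel
          _ = _ := by rw [e2, e3, add_zero, add_zero]
      rw [h6] at h5
      exact h5
    -- combine
    unfold Av at hS hU ⊢
    rw [mem_Sp] at hS ⊢
    intro c' hc' p hp hpS
    rcases hpS with hpS | hpU
    · exact hS c' hc' p hp hpS
    · obtain ⟨j, hj⟩ := Set.mem_iUnion.mp hpU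
      have := hU j
      rw [mem_Sp] at this
      exact this c' hc' p hp hj

end UnionStep

end Helper45.FDC
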