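import Pool.Agent.Helper45_FDC.Core

/-!
# Word metrics on finitely generated groups
-/

namespace Helper45.FDC

section Word

variable {G : Type} [Group G] (T : Finset G)

/-- `g` is a product of at most `n` generators or inverses of generators. -/
def WL (g : G) (n : ℕ) : Prop :=
  ∃ l : List G, (∀ y ∈ l, y ∈ T ∨ y⁻¹ ∈ T) ∧ l.length ≤ n ∧ l.prod = g

variable (hT : Subgroup.closure (T : Set G) = ⊤)

include hT in
theorem WL_ex (g : G) : ∃ n, WL T g n := by
  have hg : g ∈ (Subgroup.closure (T : Set G)).toSubmonoid := by rw [hT]; trivial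
  rw [Subgroup.closure_toSubmonoid] at hg
  obtain ⟨l, hl, rfl⟩ := Submonoid.exists_list_of_mem_closure hg
  exact ⟨l.length, l, by simpa using hl, le_rfl, rfl⟩

open Classical in
/-- Word length. -/
noncomputable def len (g : G) : ℕ := Nat.find (WL_ex T hT g)

theorem len_spec (g : G) : WL T g (len T hT g) := by
  classical
  exact Nat.find_spec (WL_ex T hT g)

theorem len_le {g : G} {n : ℕ} (h : WL T g n) : len T hT g ≤ n := by
  classical
  exact Nat.find_min' (WL_ex T hT g) h

theorem len_one : len T hT (1 : G) = 0 := by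
  have := len_le T hT (g := 1) (n := 0) ⟨[], by simp, by simp, by simp⟩
  omega

theorem len_eq_zero {g : G} (h : len T hT g = 0) : g = 1 := by
  obtain ⟨l, -, h2, h3⟩ := len_spec T hT g
  rw [h] at h2
  have : l = [] := List.eq_nil_of_length_eq_zero (by omega)
  rw [← h3, this]; rfl

theorem len_inv_le (g : G) : len T hT g⁻¹ ≤ len T hT g := by
  obtain ⟨l, h1, h2, h3⟩ := len_spec T hT g
  apply len_le
  refine ⟨(l.map (·⁻¹)).reverse, ?_, by simpa using h2, ?_⟩
  · intro y hy
    rw [List.mem_reverse, List.mem_map] at hy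
    obtain ⟨z, hz, rfl⟩ := hy
    rw [inv_inv]
    exact (h1 z hz).symm
  · rw [← List.prod_inv_reverse, h3]

theorem len_inv (g : G) : len T hT g⁻¹ = len T hT g := by
  apply le_antisymm (len_inv_le T hT g)
  have := len_inv_le T hT g⁻¹
  rwa [inv_inv] at this

theorem len_mul (g h : G) : len T hT (g * h) ≤ len T hT g + len T hT h := by
  obtain ⟨l, h1, h2, h3⟩ := len_spec T hT g
  obtain ⟨l', h1', h2', h3'⟩ := len_spec T hT h
  apply len_le
  refine ⟨l ++ l', ?_, ?_, ?_⟩
  · intro y hy
    rw [List.mem_append] at hy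
    rcases hy with hy | hy
    · exact h1 y hy
    · exact h1' y hy
  · rw [List.length_append]; omega
  · rw [List.prod_append, h3, h3']

theorem len_step {g : G} (h : 0 < len T hT g) :
    ∃ y z, g = y * z ∧ len T hT y ≤ 1 ∧ len T hT z + 1 ≤ len T hT g := by
  obtain ⟨l, h1, h2, h3⟩ := len_spec T hT g
  rcases l with _ | ⟨y, l⟩
  · exfalso
    have h4 : g = 1 := by rw [← h3]; rfl
    rw [h4, len_one] at h
    omega
  · refine ⟨y, l.prod, by rw [← h3, List.prod_cons], ?_, ?_⟩
    · apply len_le
      exact ⟨[y], by simpa using h1 y (by simp), by simp, by simp⟩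
    · have : len T hT l.prod ≤ l.length :=
        len_le T hT ⟨l, fun z hz => h1 z (by simp [hz]), le_rfl, rfl⟩
      simp only [List.length_cons] at h2
      omega

theorem ball_fin (n : ℕ) : {g : G | WL T g n}.Finite := by
  classical
  induction n with
  | zero =>
      apply Set.Finite.subset (Set.finite_singleton (1 : G))
      rintro g ⟨l, -, h2, h3⟩
      have : l = [] := List.eq_nil_of_length_eq_zero (by omega)
      rw [Set.mem_singleton_iff, ← h3, this]; rfl
  | succ n ih =>
      have h4 : ({g : G | g ∈ T ∨ g⁻¹ ∈ T} ∪ {1}).Finite := by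
        apply Set.Finite.union _ (Set.finite_singleton _)
        apply Set.Finite.subset (T.finite_toSet.union (T.finite_toSet.image (·⁻¹)))
        rintro g (hg | hg)
        · exact Or.inl hg
        · exact Or.inr ⟨g⁻¹, hg, inv_inv g⟩
      apply Set.Finite.subset (Set.Finite.image2 (fun x y => x * y) h4 ih)
      rintro g ⟨l, h1, h2, h3⟩
      rcases l with _ | ⟨y, l⟩
      · exact ⟨1, Or.inr rfl, 1, ⟨[], by simp, by simp, by simp⟩, by rw [← h3]; simp⟩
      · refine ⟨y, Or.inl (h1 y (by simp)), l.prod, ⟨l, fun z hz => h1 z (by simp [hz]), ?_, rfl⟩, ?_⟩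
        · simp only [List.length_cons] at h2; omega
        · rw [← h3, List.prod_cons]

theorem ball_fin' (n : ℕ) : {g : G | len T hT g ≤ n}.Finite := by
  apply Set.Finite.subset (ball_fin T n)
  intro g hg
  obtain ⟨l, h1, h2, h3⟩ := len_spec T hT g
  exact ⟨l, h1, h2.trans hg, h3⟩

/-- The word metric as a graph metric. -/
noncomputable def wordGM [Infinite G] : GM G where
  d := fun x y => len T hT (x⁻¹ * y)
  self := by intro x; rw [inv_mul_cancel, len_one]
  comm := by
    intro x y
    rw [← len_inv T hT (x⁻¹ * y)]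
    congr 1
    group
  tri := by
    intro x y z
    have := len_mul T hT (x⁻¹ * y) (y⁻¹ * z)
    have h2 : x⁻¹ * y * (y⁻¹ * z) = x⁻¹ * z := by group
    rwa [h2] at this
  step := by
    intro x y h
    obtain ⟨u, v, h1, h2, h3⟩ := len_step T hT h
    refine ⟨x * u, ?_, ?_⟩
    · rw [inv_mul_cancel_left]; exact h2
    · have : (x * u)⁻¹ * y = v := by
        have : y = x * (u * v) := by rw [← h1]; group
        rw [this]; group
      rw [this]; exact h3
  fin := by
    intro x n
    apply Set.Finite.subset ((ball_fin' T hT n).image (x * ·))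
    intro y hy
    exact ⟨x⁻¹ * y, hy, by simp⟩
  unb := by
    intro x n
    by_contra hcon
    push Not at hcon
    have h1 : (Set.univ : Set G).Finite := by
      apply Set.Finite.subset ((ball_fin' T hT n).image (x * ·))
      intro y _
      exact ⟨x⁻¹ * y, hcon y, by simp⟩
    exact Set.infinite_univ h1
  ne := ⟨1⟩

/-- A function on a finite set of group elements is bounded. -/
theorem exists_len_bound (F : Set G) (hF : F.Finite) : ∃ N, ∀ g ∈ F, len T hT g ≤ N := by
  obtain ⟨N, hN⟩ := (hF.image (len T hT)).bddAbove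
  exact ⟨N, fun g hg => hN ⟨g, hg, rfl⟩⟩

include T hT in
/-- **Finitely generated infinite groups that coarsely contain their square** do not have
weak finite decomposition complexity. -/
theorem fg_not_weakFDC [Infinite G] (β : G → G → G)
    (hβ1 : ∀ F : Finset G, ∃ F' : Finset G, ∀ g g' h h', g⁻¹ * g' ∈ F → h⁻¹ * h' ∈ F →
      (β g h)⁻¹ * β g' h' ∈ F')
    (hβ2 : ∀ F : Finset G, ∃ F' : Finset G, ∀ g g' h h', (β g h)⁻¹ * β g' h' ∈ F →
      g⁻¹ * g' ∈ F' ∧ h⁻¹ * h' ∈ F')
    (m : MetricSpace G) (hm : ProperLeftInvariant G m) : ¬ HasWeakFDC (single G m) := by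
  -- the square
  have key1 : ∀ R : ℕ, ∃ N : ℕ, ∀ x y x' y', (wordGM T hT).d x x' ≤ R → (wordGM T hT).d y y' ≤ R →
      (wordGM T hT).d (β x y) (β x' y') ≤ N := by
    intro R
    obtain ⟨F', hF'⟩ := hβ1 (ball_fin' T hT R).toFinset
    obtain ⟨N, hN⟩ := exists_len_bound T hT (F' : Set G) F'.finite_toSet
    refine ⟨N, fun x y x' y' h1 h2 => hN _ ?_⟩
    exact hF' _ _ _ _ ((Set.Finite.mem_toFinset _).mpr h1) ((Set.Finite.mem_toFinset _).mpr h2)
  have key2 : ∀ R : ℕ, ∃ N : ℕ, ∀ x y x' y', (wordGM T hT).d (β x y) (β x' y') ≤ R →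
      (wordGM T hT).d x x' ≤ N ∧ (wordGM T hT).d y y' ≤ N := by
    intro R
    obtain ⟨F', hF'⟩ := hβ2 (ball_fin' T hT R).toFinset
    obtain ⟨N, hN⟩ := exists_len_bound T hT (F' : Set G) F'.finite_toSet
    refine ⟨N, fun x y x' y' h1 => ?_⟩
    have h2 := hF' x x' y y' ((Set.Finite.mem_toFinset _).mpr h1)
    exact ⟨hN _ h2.1, hN _ h2.2⟩
  choose ω1 hω1 using key1
  choose ω2 hω2 using key2
  let s : Sq (wordGM T hT) :=
    { β := β
      ω := fun R => max (ω1 R) (ω2 R)
      h1 := fun x y x' y' R h h' => (hω1 R x y x' y' h h').trans (le_max_left _ _)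
      h2 := fun x y x' y' R h => ⟨((hω2 R x y x' y' h).1).trans (le_max_right _ _),
        ((hω2 R x y x' y' h).2).trans (le_max_right _ _)⟩ }
  -- comparison of the metrics
  have hdist : ∀ x y : G, dist x y = dist 1 (x⁻¹ * y) := by
    intro x y
    have := hm.1 x 1 (x⁻¹ * y)
    rw [mul_one, mul_inv_cancel_left] at this
    exact this
  have key3 : ∀ R : ℕ, ∃ N : ℕ, ∀ g : G, len T hT g ≤ R → dist (1 : G) g ≤ N := by
    intro R
    obtain ⟨B, hB⟩ := ((ball_fin' T hT R).image (fun g => dist (1 : G) g)).bddAbove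
    obtain ⟨N, hN⟩ := exists_nat_ge B
    exact ⟨N, fun g hg => (hB ⟨g, hg, rfl⟩).trans hN⟩
  have key4 : ∀ R : ℕ, ∃ N : ℕ, ∀ g : G, dist (1 : G) g ≤ R → len T hT g ≤ N := by
    intro R
    obtain ⟨N, hN⟩ := exists_len_bound T hT _ (hm.2 1 R)
    exact ⟨N, fun g hg => hN g hg⟩
  choose ω3 hω3 using key3
  choose ω4 hω4 using key4
  apply not_weakFDC s m (fun R => max (ω3 R) (ω4 R))
  intro x y R
  constructor
  · intro h
    rw [hdist]
    refine (hω3 R _ h).trans ?_
    exact_mod_cast le_max_left _ _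
  · intro h
    rw [hdist] at h
    exact (hω4 R _ h).trans (le_max_right _ _)

/-- The word metric as a metric space structure. -/
@[instance_reducible]
noncomputable def wordMetric : MetricSpace G where
  dist := fun x y => (len T hT (x⁻¹ * y) : ℝ)
  dist_self := by intro x; simp [len_one]
  dist_comm := by
    intro x y
    have : len T hT (x⁻¹ * y) = len T hT (y⁻¹ * x) := by
      rw [← len_inv T hT (x⁻¹ * y)]
      congr 1
      group
    simp only [this]
  dist_triangle := by
    intro x y z
    have := len_mul T hT (x⁻¹ * y) (y⁻¹ * z)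
    have h2 : x⁻¹ * y * (y⁻¹ * z) = x⁻¹ * z := by group
    rw [h2] at this
    exact_mod_cast this
  eq_of_dist_eq_zero := by
    intro x y h
    have h1 : len T hT (x⁻¹ * y) = 0 := by exact_mod_cast h
    have h2 := len_eq_zero T hT h1
    exact (inv_mul_eq_one.mp h2)

theorem wordMetric_proper : ProperLeftInvariant G (wordMetric T hT) := by
  constructor
  · intro g x y
    show (len T hT ((g * x)⁻¹ * (g * y)) : ℝ) = (len T hT (x⁻¹ * y) : ℝ)
    congr 2
    group
  · intro x r
    obtain ⟨N, hN⟩ := exists_nat_ge r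
    apply Set.Finite.subset ((ball_fin' T hT N).image (x * ·))
    intro y hy
    refine ⟨x⁻¹ * y, ?_, by simp⟩
    have h1 : (len T hT (x⁻¹ * y) : ℝ) ≤ r := hy
    have h2 : (len T hT (x⁻¹ * y) : ℝ) ≤ N := h1.trans hN
    exact_mod_cast h2

include hT in
theorem countable_of_fg : Countable G := by
  rw [← Set.countable_univ_iff]
  have : (Set.univ : Set G) = ⋃ n : ℕ, {g | len T hT g ≤ n} := by
    ext g
    simp only [Set.mem_univ, Set.mem_iUnion, true_iff]
    exact ⟨len T hT g, show len T hT g ≤ len T hT g from le_rfl⟩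
  rw [this]
  exact Set.countable_iUnion fun n => (ball_fin' T hT n).countable

end Word

end Helper45.FDC
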